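import Mathlib

set_option autoImplicit false

namespace Pool.Agent.TH352.RC

lemma sqf_rep (x : ℚ) (hx : x ≠ 0) :
    ∃ d : ℤ, Squarefree d ∧ ∃ u : ℚ, u ≠ 0 ∧ x = d * u ^ 2 := by
  set n : ℤ := x.num * x.den with hn
  have hden : (x.den : ℚ) ≠ 0 := by exact_mod_cast x.den_nz
  have hn0 : n ≠ 0 := mul_ne_zero (Rat.num_ne_zero.mpr hx) (by exact_mod_cast x.den_nz)
  obtain ⟨a, b, hab, ha⟩ := Nat.sq_mul_squarefree n.natAbs
  have hb : b ≠ 0 := by
    rintro rfl
    apply hn0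
    rw [← Int.natAbs_eq_zero, ← hab]; ring
  refine ⟨n.sign * a, ?_, (b : ℚ) / x.den, div_ne_zero (by exact_mod_cast hb) hden, ?_⟩
  · rw [← Int.squarefree_natAbs, Int.natAbs_mul, Int.natAbs_sign_of_ne_zero hn0, one_mul,
      Int.natAbs_natCast]
    exact ha
  · have h1 : (n : ℚ) = (n.sign : ℚ) * ((b : ℚ) ^ 2 * a) := by
      have h2 : n = n.sign * ((b : ℤ) ^ 2 * a) := by
        conv_lhs => rw [← Int.sign_mul_natAbs n, ← hab]
        push_cast
        ring
      exact_mod_cast h2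
    have h3 : (n : ℚ) = x.num * x.den := by rw [hn]; push_cast; ring
    have h4 : x * x.den = x.num := Rat.mul_den_eq_num x
    have h5 : x * (x.den : ℚ) ^ 2 = (n.sign : ℚ) * ((b : ℚ) ^ 2 * a) := by
      rw [← h1, h3, ← h4]; ring
    push_cast
    field_simp
    linear_combination h5

lemma sqf_eq {d d' : ℤ} (hd : Squarefree d) (hd' : Squarefree d') {s : ℚ}
    (h : (d : ℚ) * d' = s ^ 2) : d = d' := by
  have h1 : IsSquare (((d * d' : ℤ)) : ℚ) := ⟨s, by push_cast; rw [h]; ring⟩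
  rw [Rat.isSquare_intCast_iff] at h1
  obtain ⟨m, hm⟩ := h1
  have hd0 : d ≠ 0 := hd.ne_zero
  have h2 : d ∣ m ^ 2 := ⟨d', by rw [hm]; ring⟩
  have h3 : d ∣ m := (hd.dvd_pow_iff_dvd two_ne_zero).mp h2
  obtain ⟨k, hk⟩ := h3
  have h4 : d' = d * (k * k) := by
    apply mul_left_cancel₀ hd0
    rw [hm, hk]; ring
  have h5 : IsUnit k := hd' k ⟨d, by rw [h4]; ring⟩
  have h6 : k * k = 1 := by
    rcases Int.isUnit_iff.mp h5 with rfl | rfl <;> norm_num
  rw [h4, h6, mul_one]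

lemma padic_int_zero {p : ℕ} [Fact p.Prime] {a : ℤ} (ha : ¬ (p : ℤ) ∣ a) :
    padicValRat p (a : ℚ) = 0 := by
  rw [padicValRat.of_int]
  norm_cast
  exact padicValInt.eq_zero_of_not_dvd ha

lemma even_val {p : ℕ} [Fact p.Prime] {a b : ℤ} (ha : ¬ (p : ℤ) ∣ a) (hb : ¬ (p : ℤ) ∣ b)
    {x y : ℚ} (hy : y ≠ 0) (h : y ^ 2 = x * (x + a) * (x + b)) : Even (padicValRat p x) := by
  have hp : x * (x + a) * (x + b) ≠ 0 := by rw [← h]; exact pow_ne_zero _ hy
  have hx : x ≠ 0 := fun h0 => hp (by rw [h0]; ring)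
  have hxa : x + a ≠ 0 := fun h0 => hp (by rw [h0]; ring)
  have hxb : x + b ≠ 0 := fun h0 => hp (by rw [h0]; ring)
  have ha0 : (a : ℚ) ≠ 0 := by
    intro h0
    apply ha
    have : a = 0 := by exact_mod_cast h0
    rw [this]; exact dvd_zero _
  have hb0 : (b : ℚ) ≠ 0 := by
    intro h0
    apply hb
    have : b = 0 := by exact_mod_cast h0
    rw [this]; exact dvd_zero _
  have va := padic_int_zero (p := p) ha
  have vb := padic_int_zero (p := p) hb
  have hv := congrArg (padicValRat p) h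
  rw [padicValRat.pow, padicValRat.mul (mul_ne_zero hx hxa) hxb, padicValRat.mul hx hxa] at hv
  by_cases h0 : padicValRat p x = 0
  · rw [h0]; exact Even.zero
  · have e1 := padicValRat.add_eq_min hxa hx ha0 (by rw [va]; exact h0)
    have e2 := padicValRat.add_eq_min hxb hx hb0 (by rw [vb]; exact h0)
    rw [va] at e1
    rw [vb] at e2
    rw [e1, e2] at hv
    rcases lt_or_gt_of_ne h0 with h1 | h1
    · rw [min_eq_left h1.le] at hv
      refine ⟨padicValRat p y - padicValRat p x, ?_⟩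
      push_cast at hv
      linarith
    · rw [min_eq_right h1.le] at hv
      refine ⟨padicValRat p y, ?_⟩
      push_cast at hv
      linarith

lemma padic_sqf {p : ℕ} [hp : Fact p.Prime] {d : ℤ} (hd : Squarefree d) (h : (p : ℤ) ∣ d) :
    padicValRat p (d : ℚ) = 1 := by
  have hd0 : d ≠ 0 := hd.ne_zero
  rw [padicValRat.of_int]
  have h1 : padicValInt p d = 1 := by
    apply le_antisymm
    · by_contra hn
      push Not at hn
      have h2 : ((p : ℤ)) ^ 2 ∣ d := by
        rw [padicValInt_dvd_iff]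
        right
        exact hn
      have h3 := hd (p : ℤ) (by rw [← sq]; exact h2)
      have h4 : Prime (p : ℤ) := Nat.prime_iff_prime_int.mp hp.out
      exact h4.not_isUnit h3
    · have := (padicValInt_dvd_iff 1 d (p := p)).mp (by simpa using h)
      rcases this with h0 | h0
      · exact absurd h0 hd0
      · exact h0
  rw [h1]; norm_num

lemma dvd_prod {a b d : ℤ} (hd : Squarefree d) {x y u : ℚ} (hy : y ≠ 0)
    (h : y ^ 2 = x * (x + a) * (x + b)) (hu : u ≠ 0) (hx : x = d * u ^ 2) (hab : a * b ≠ 0) :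
    d ∣ a * b := by
  have key : ∀ p : ℕ, p.Prime → (p : ℤ) ∣ d → (p : ℤ) ∣ a * b := by
    intro p hp hpd
    have : Fact p.Prime := ⟨hp⟩
    by_contra hn
    have ha : ¬ (p : ℤ) ∣ a := fun h1 => hn (h1.mul_right _)
    have hb : ¬ (p : ℤ) ∣ b := fun h1 => hn (h1.mul_left _)
    have h1 := even_val ha hb hy h
    have hd0 : (d : ℚ) ≠ 0 := by exact_mod_cast hd.ne_zero
    rw [hx, padicValRat.mul hd0 (pow_ne_zero _ hu), padicValRat.pow, padic_sqf hd hpd] at h1
    obtain ⟨k, hk⟩ := h1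
    push_cast at hk
    omega
  rw [← Int.natAbs_dvd_natAbs]
  have h1 : (d.natAbs.primeFactors) ⊆ (a * b).natAbs.primeFactors := by
    intro p hp
    rw [Nat.mem_primeFactors] at hp ⊢
    refine ⟨hp.1, ?_, Int.natAbs_ne_zero.mpr hab⟩
    have := key p hp.1 (Int.natCast_dvd.mpr hp.2.1)
    exact Int.natCast_dvd.mp this
  have hs : Squarefree d.natAbs := Int.squarefree_natAbs.mpr hd
  calc d.natAbs = ∏ p ∈ d.natAbs.primeFactors, p := (Nat.prod_primeFactors_of_squarefree hs).symm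
    _ ∣ ∏ p ∈ (a * b).natAbs.primeFactors, p := Finset.prod_dvd_prod_of_subset _ _ _ h1
    _ ∣ (a * b).natAbs := Nat.prod_primeFactors_dvd _

lemma natAbs_le {d n : ℤ} (h : d ∣ n) (hn : n ≠ 0) : |d| ≤ |n| :=
  Int.le_of_dvd (abs_pos.mpr hn) (abs_dvd_abs d n |>.mpr h)

end Pool.Agent.TH352.RC
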