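import Mathlib

set_option autoImplicit false

open Finset

namespace Pool.Agent.TH352.RC

/-- The coefficient list of the plane quartic of the class `(d, e)`. -/
def clist (a b d e : ℤ) : List (List ℤ) :=
  [[(d * a - b) * (d * a - b), 0, -(2 * (d * e) * (d * a + b)), 0, (d * e) * (d * e)], [],
    [2 * (d * d - d) * (d * a - b), 0, -(2 * (d * e) * (d * d + d))], [],
    [(d * d - d) * (d * d - d)]]

/-- The zero set predicate of the coefficient list. -/
def ZInf (L : List (List ℤ)) : Prop :=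
  Set.Infinite {p : ℚ × ℚ | ∑ i ∈ range L.length, ∑ j ∈ range (L.getD i []).length,
    (((L.getD i []).getD j 0 : ℤ) : ℚ) * p.1 ^ i * p.2 ^ j = 0}

def FF (a b d e : ℤ) (u t : ℚ) : ℚ :=
  ((d * e : ℚ) * t ^ 2 - (d * (d * u ^ 2 + a) + (d * u ^ 2 + b))) ^ 2
    - 4 * d * (d * u ^ 2 + a) * (d * u ^ 2 + b)

lemma eval_clist (a b d e : ℤ) (u t : ℚ) :
    (∑ i ∈ range (clist a b d e).length, ∑ j ∈ range ((clist a b d e).getD i []).length,
    ((((clist a b d e).getD i []).getD j 0 : ℤ) : ℚ) * u ^ i * t ^ j) = FF a b d e u t := by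
  simp [clist, sum_range_succ, FF]
  ring

/-- The abscissas of the points of class `(d, e)`. -/
def XS (a b d e : ℤ) : Set ℚ :=
  {x : ℚ | ∃ u v w : ℚ, u ≠ 0 ∧ v ≠ 0 ∧ w ≠ 0 ∧ x = d * u ^ 2 ∧ x + a = e * v ^ 2 ∧
    x + b = d * e * w ^ 2}

lemma fin_quad {c : ℚ} (hc : c ≠ 0) (s : ℚ) : {u : ℚ | c * u ^ 2 = s}.Finite := by
  have : {u : ℚ | c * u ^ 2 = s} ⊆ {u : ℚ | (Polynomial.C c * Polynomial.X ^ 2 - Polynomial.C s).IsRoot u} := by
    intro u hu
    simp only [Set.mem_ofPred_eq] at hu ⊢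
    simp [Polynomial.IsRoot, hu]
  refine Set.Finite.subset (Polynomial.finite_setOfPred_isRoot ?_) this
  intro h0
  have := congrArg (fun q => Polynomial.coeff q 2) h0
  simp at this
  exact hc this

lemma fin_quart {c : ℚ} (hc : c ≠ 0) (s r : ℚ) : {t : ℚ | (c * t ^ 2 - s) ^ 2 = r}.Finite := by
  have : {t : ℚ | (c * t ^ 2 - s) ^ 2 = r} ⊆
      (fun t : ℚ => c * t ^ 2) ⁻¹' ((fun z : ℚ => z - s) ⁻¹' {z : ℚ | 1 * z ^ 2 = r}) := by
    intro t ht
    simp only [Set.mem_ofPred_eq, Set.mem_preimage] at ht ⊢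
    rw [← ht]; ring
  refine Set.Finite.subset ?_ this
  refine Set.Finite.preimage' ?_ (fun b _ => ?_)
  · refine Set.Finite.preimage ?_ (fin_quad one_ne_zero r)
    intro z1 _ z2 _ hz
    simpa using hz
  · have := fin_quad hc b
    convert this using 1
    ext u
    simp

lemma Z_inf_iff {a b d e : ℤ} (hd : d ≠ 0) (he : e ≠ 0) (hab : a ≠ b) :
    ZInf (clist a b d e) ↔ (XS a b d e).Infinite := by
  have hdq : (d : ℚ) ≠ 0 := by exact_mod_cast hd
  have heq : (e : ℚ) ≠ 0 := by exact_mod_cast he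
  have habq : (a : ℚ) ≠ b := by exact_mod_cast hab
  have hZ : {p : ℚ × ℚ | ∑ i ∈ range (clist a b d e).length,
      ∑ j ∈ range ((clist a b d e).getD i []).length,
      ((((clist a b d e).getD i []).getD j 0 : ℤ) : ℚ) * p.1 ^ i * p.2 ^ j = 0} =
      {p : ℚ × ℚ | FF a b d e p.1 p.2 = 0} := by
    ext p
    simp only [Set.mem_ofPred_eq]
    rw [eval_clist]
  unfold ZInf
  rw [hZ, ← not_iff_not, Set.not_infinite, Set.not_infinite]
  constructor
  · intro hfin
    refine Set.Finite.subset (hfin.image (fun p => (d : ℚ) * p.1 ^ 2)) ?_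
    rintro x ⟨u, v, w, hu, hv, hw, h1, h2, h3⟩
    refine ⟨(u, v + w), ?_, h1.symm⟩
    simp only [Set.mem_ofPred_eq, FF]
    have e1 : (d : ℚ) * u ^ 2 + a = e * v ^ 2 := by rw [← h1, h2]
    have e2 : (d : ℚ) * u ^ 2 + b = d * e * w ^ 2 := by rw [← h1, h3]
    rw [e1, e2]
    ring
  · intro hfin
    have hU1 : {u : ℚ | (d : ℚ) * u ^ 2 ∈ XS a b d e ∪ {0, -(a : ℚ), -(b : ℚ)}}.Finite := by
      have : {u : ℚ | (d : ℚ) * u ^ 2 ∈ XS a b d e ∪ {0, -(a : ℚ), -(b : ℚ)}} =
        (fun u : ℚ => (d : ℚ) * u ^ 2) ⁻¹' (XS a b d e ∪ {0, -(a : ℚ), -(b : ℚ)}) := rfl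
      rw [this]
      refine Set.Finite.preimage' (hfin.union (by simp)) (fun s _ => ?_)
      exact fin_quad hdq s
    have hU2 : {u : ℚ | ((d : ℚ) ^ 2 - d) * u ^ 2 = b - d * a}.Finite := by
      by_cases h0 : (d : ℚ) ^ 2 - d = 0
      · have h1 : (d : ℚ) = 1 := by
          have : (d : ℚ) * (d - 1) = 0 := by linear_combination h0
          rcases mul_eq_zero.mp this with h2 | h2
          · exact absurd h2 hdq
          · linear_combination h2
        convert Set.finite_empty
        ext u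
        simp only [Set.mem_ofPred_eq, Set.mem_empty_iff_false, iff_false]
        rw [h1]
        intro h2
        apply habq
        linear_combination h2
      · exact fin_quad h0 _
    refine Set.Finite.subset ((hU1.union hU2).biUnion (t := fun u => Prod.mk u '' {t : ℚ | ((d * e : ℚ) * t ^ 2 - (d * (d * u ^ 2 + a) + (d * u ^ 2 + b))) ^ 2 = 4 * d * (d * u ^ 2 + a) * (d * u ^ 2 + b)})
      (fun u _ => Set.Finite.image _ (fin_quart (mul_ne_zero hdq heq) _ _))) ?_
    rintro ⟨u, t⟩ hut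
    simp only [Set.mem_ofPred_eq, FF] at hut
    simp only [Set.mem_iUnion, Set.mem_image, Set.mem_ofPred_eq, Prod.mk.injEq, exists_prop]
    refine ⟨u, ?_, t, by linear_combination hut, rfl, rfl⟩
    by_cases ht : t = 0
    · right
      subst ht
      have h1 : (((d : ℚ) ^ 2 - d) * u ^ 2 - (b - d * a)) ^ 2 = 0 := by
        linear_combination hut
      have h2 := pow_eq_zero_iff (two_ne_zero) |>.mp h1
      simp only [Set.mem_ofPred_eq]
      linear_combination h2
    · left
      simp only [Set.mem_ofPred_eq, Set.mem_union, Set.mem_insert_iff, Set.mem_singleton_iff]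
      by_cases c1 : (d : ℚ) * u ^ 2 = 0
      · right; left; exact c1
      by_cases c2 : (d : ℚ) * u ^ 2 = -a
      · right; right; left; exact c2
      by_cases c3 : (d : ℚ) * u ^ 2 = -b
      · right; right; right; exact c3
      left
      have hu : u ≠ 0 := by rintro rfl; apply c1; ring
      have d2 : (d : ℚ) * u ^ 2 + a ≠ 0 := fun h => c2 (by linear_combination h)
      have d3 : (d : ℚ) * u ^ 2 + b ≠ 0 := fun h => c3 (by linear_combination h)
      set v : ℚ := (t ^ 2 + (d * u ^ 2 + a) / e - (d * u ^ 2 + b) / (d * e)) / (2 * t) with hv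
      set w : ℚ := (t ^ 2 - (d * u ^ 2 + a) / e + (d * u ^ 2 + b) / (d * e)) / (2 * t) with hw
      have k1 : (d : ℚ) * u ^ 2 + a = e * v ^ 2 := by
        rw [hv]
        field_simp
        linear_combination (-1 : ℚ) * hut
      have k2 : (d : ℚ) * u ^ 2 + b = d * e * w ^ 2 := by
        rw [hw]
        field_simp
        linear_combination (-1 : ℚ) * hut
      refine ⟨u, v, w, hu, ?_, ?_, rfl, k1, k2⟩
      · intro h0
        apply d2
        rw [k1, h0]; ring
      · intro h0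
        apply d3
        rw [k2, h0]; ring

end Pool.Agent.TH352.RC
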