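import Mathlib
import Pool.Agent.H437R2.Man.MWWeak
import Pool.Agent.TeamU.B1
import Pool.Agent.TH841.SH.Alg
import Pool.Agent.TH352.RC.RC1
import Pool.Agent.TH352.RC.RC2

set_option autoImplicit false

open Finset WeierstrassCurve

namespace Pool.Agent.TH352.RC

open Pool.Agent.H437R2.Man.MW Pool.Agent.TH841.SH Pool.Agent.TeamU

/-- the group -/
abbrev GG (a b : ℤ) : Type := Pt (0 : ℚ) (a : ℚ) (b : ℚ)

lemma isR (a b : ℤ) : IsR (crv (0 : ℚ) (a : ℚ) (b : ℚ)) 0 (-(a : ℚ)) (-(b : ℚ)) := by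
  refine ⟨rfl, ?_, rfl, ?_, ?_⟩ <;> simp [crv]
  ring

lemma q12 {a : ℤ} (ha : a ≠ 0) : (0 : ℚ) ≠ (a : ℚ) := by exact_mod_cast ha.symm
lemma q23 {a b : ℤ} (hab : a ≠ b) : (a : ℚ) ≠ (b : ℚ) := by exact_mod_cast hab

/-- the identity behind the addition of classes -/
lemma add_class {a b : ℤ} {x1 y1 x2 y2 X Y : ℚ}
    (h1 : (crv (0 : ℚ) (a : ℚ) (b : ℚ)).toAffine.Nonsingular x1 y1)
    (h2 : (crv (0 : ℚ) (a : ℚ) (b : ℚ)).toAffine.Nonsingular x2 y2)
    (h3 : (crv (0 : ℚ) (a : ℚ) (b : ℚ)).toAffine.Nonsingular X Y) (hx : x1 ≠ x2)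
    (h : Affine.Point.some x1 y1 h1 + Affine.Point.some x2 y2 h2 = Affine.Point.some X Y h3)
    (c : ℚ) (hc : c = 0 ∨ c = a ∨ c = b) :
    ∃ z : ℚ, (X + c) * ((x1 + c) * (x2 + c)) = z ^ 2 := by
  have q1 := crv_eqn.mp h1.1
  have q2 := crv_eqn.mp h2.1
  have hx' : x1 - x2 ≠ 0 := sub_ne_zero.mpr hx
  have hX : X = numr (0 : ℚ) (a : ℚ) (b : ℚ) x1 x2 (y1 * y2) / (x1 - x2) ^ 2 := by
    have h4 := xRep_add h1 h2 hx
    rw [h, Affine.Point.xRep_some] at h4
    exact congrFun h4 0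
  refine ⟨(y1 * x2 - y2 * x1 + c * (y1 - y2)) / (x1 - x2), ?_⟩
  rw [hX, numr, div_pow]
  rcases hc with rfl | rfl | rfl
  · field_simp
    linear_combination (-(x2 + 0) ^ 2) * q1 + (-(x1 + 0) ^ 2) * q2
  · field_simp
    linear_combination (-(x2 + a) ^ 2) * q1 + (-(x1 + a) ^ 2) * q2
  · field_simp
    linear_combination (-(x2 + b) ^ 2) * q1 + (-(x1 + b) ^ 2) * q2

/-- doubles have square abscissas -/
lemma dup_sq {a b : ℤ} {Q : GG a b} {X Y : ℚ}
    (h3 : (crv (0 : ℚ) (a : ℚ) (b : ℚ)).toAffine.Nonsingular X Y)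
    (h : Q + Q = Affine.Point.some X Y h3) (c : ℚ) (hc : c = 0 ∨ c = a ∨ c = b) :
    ∃ s : ℚ, X + c = s ^ 2 := by
  rcases Q with _ | ⟨u, v, hn⟩
  · exfalso
    have h0 : (0 : GG a b) + 0 = Affine.Point.some X Y h3 := h
    rw [add_zero] at h0
    exact Affine.Point.some_ne_zero _ h0.symm
  · by_cases hv : v = 0
    · exfalso
      have h0 := ((isR a b).add_self two_ne_zero hn).2 hv
      rw [h0] at h
      exact Affine.Point.some_ne_zero _ h.symm
    · rcases hc with rfl | rfl | rfl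
      · obtain ⟨X', Y', hn', e1, e2⟩ := (isR a b).dup two_ne_zero hn hv
        rw [h] at e1
        simp only [Affine.Point.some.injEq] at e1
        rw [e1.1]
        exact ⟨_, by rw [← e2]; ring⟩
      · obtain ⟨X', Y', hn', e1, e2⟩ := (isR a b).swap.dup two_ne_zero hn hv
        rw [h] at e1
        simp only [Affine.Point.some.injEq] at e1
        rw [e1.1]
        exact ⟨_, by rw [← e2]; ring⟩
      · obtain ⟨X', Y', hn', e1, e2⟩ := (isR a b).rot.rot.dup two_ne_zero hn hv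
        rw [h] at e1
        simp only [Affine.Point.some.injEq] at e1
        rw [e1.1]
        exact ⟨_, by rw [← e2]; ring⟩

/-- points of class `(d, e)` -/
def PS (a b d e : ℤ) : Set (GG a b) :=
  {P | ∃ (x y : ℚ) (h : (crv (0 : ℚ) (a : ℚ) (b : ℚ)).toAffine.Nonsingular x y),
    P = Affine.Point.some x y h ∧ x ∈ XS a b d e}

/-- 2-torsion -/
def T2 (a b : ℤ) : Set (GG a b) := {T | T + T = 0}

lemma T2_fin (a b : ℤ) : (T2 a b).Finite := by
  classical
  have key : ∀ r : ℚ, {T : GG a b | ∃ hn, T = Affine.Point.some r 0 hn}.Finite := by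
    intro r
    by_cases h : (crv (0 : ℚ) (a : ℚ) (b : ℚ)).toAffine.Nonsingular r 0
    · refine Set.Finite.subset (Set.finite_singleton (Affine.Point.some r 0 h)) ?_
      rintro T ⟨hn, rfl⟩
      rfl
    · refine Set.Finite.subset (Set.finite_empty) ?_
      rintro T ⟨hn, rfl⟩
      exact absurd hn h
  refine Set.Finite.subset ((Set.finite_singleton (0 : GG a b)).union
    ((key 0).union ((key (-(a : ℚ))).union (key (-(b : ℚ)))))) ?_
  intro T hT
  rcases (isR a b).tors two_ne_zero hT with h | h | h | h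
  · left; exact h
  · right; left; exact h
  · right; right; left; exact h
  · right; right; right; exact h

lemma PS_not_T2 {a b d e : ℤ} (hd : d ≠ 0) (he : e ≠ 0) {P : GG a b} (hP : P ∈ PS a b d e) :
    P ∉ T2 a b := by
  obtain ⟨x, y, h, rfl, u, v, w, hu, hv, hw, h1, h2, h3⟩ := hP
  intro h0
  have h4 := ((isR a b).add_self two_ne_zero h).1 h0
  have q := crv_eqn.mp h.1
  rw [h4, add_zero, h2, h3, h1] at q
  have hdq : (d : ℚ) ≠ 0 := by exact_mod_cast hd
  have heq : (e : ℚ) ≠ 0 := by exact_mod_cast he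
  have : (d * u ^ 2 : ℚ) * (e * v ^ 2) * (d * e * w ^ 2) ≠ 0 := by positivity
  apply this
  rw [← q]; ring

/-- two points of the same class are congruent modulo `2G` -/
lemma same_class {a b d e : ℤ} (ha : a ≠ 0) (hb : b ≠ 0) (hab : a ≠ b) (hd : d ≠ 0) (he : e ≠ 0)
    {P P' : GG a b} (hP : P ∈ PS a b d e) (hP' : P' ∈ PS a b d e) :
    ∃ Q : GG a b, P' = P + (Q + Q) := by
  obtain ⟨x, y, h, rfl, u, v, w, hu, hv, hw, h1, h2, h3⟩ := hP
  obtain ⟨x', y', h', rfl, u', v', w', hu', hv', hw', h1', h2', h3'⟩ := hP'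
  have hdq : (d : ℚ) ≠ 0 := by exact_mod_cast hd
  have heq : (e : ℚ) ≠ 0 := by exact_mod_cast he
  obtain ⟨Q, hQ⟩ := add_double (r1 := d * u * u') (r2 := e * v * v') (r3 := d * e * w * w')
    (q12 ha) (q12 hb) (q23 hab) h h'
    (mul_ne_zero (mul_ne_zero hdq hu) hu') (mul_ne_zero (mul_ne_zero heq hv) hv')
    (mul_ne_zero (mul_ne_zero (mul_ne_zero hdq heq) hw) hw')
    (by rw [add_zero, add_zero, h1, h1']; ring) (by rw [h2, h2']; ring) (by rw [h3, h3']; ring)
  refine ⟨Q - Affine.Point.some x y h, ?_⟩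
  have : Affine.Point.some x y h + (Q - Affine.Point.some x y h + (Q - Affine.Point.some x y h)) =
    (Q + Q) - Affine.Point.some x y h := by abel
  rw [this, hQ]; abel

/-- generic points congruent modulo `2G` have the same class -/
lemma class_eq {a b d e d' e' : ℤ} (ha : a ≠ 0) (hb : b ≠ 0) (hab : a ≠ b)
    (hd : Squarefree d) (he : Squarefree e) (hd' : Squarefree d') (he' : Squarefree e')
    {P P' Q : GG a b} (hP : P ∈ PS a b d e) (hP' : P' ∈ PS a b d' e')
    (hQ : P' - P = Q + Q) (hT : P' - P ∉ T2 a b) (h1 : P' ≠ P) (h2 : P' ≠ -P) :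
    d = d' ∧ e = e' := by
  obtain ⟨x, y, h, rfl, u, v, w, hu, hv, hw, k1, k2, k3⟩ := hP
  obtain ⟨x', y', h', rfl, u', v', w', hu', hv', hw', k1', k2', k3'⟩ := hP'
  have q := crv_eqn.mp h.1
  have q' := crv_eqn.mp h'.1
  have hneg : (crv (0 : ℚ) (a : ℚ) (b : ℚ)).toAffine.Nonsingular x (-y) :=
    crv_nonsing (q12 ha) (q12 hb) (q23 hab) (by rw [← q]; ring)
  have hnP := neg_mk h hneg
  have hx : x' ≠ x := by
    intro hxx
    subst hxx
    have : y' = y ∨ y' = -y := by
      apply sq_eq_sq_iff_eq_or_eq_neg.mp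
      rw [q, q']
    rcases this with rfl | rfl
    · exact h1 rfl
    · exact h2 hnP.symm
  rcases hR : (Affine.Point.some x' y' h' - Affine.Point.some x y h : GG a b) with _ | ⟨X, Y, hn⟩
  · exfalso
    apply hT
    rw [hR]
    exact add_zero (0 : GG a b)
  · have hadd : Affine.Point.some x' y' h' + Affine.Point.some x (-y) hneg =
        Affine.Point.some X Y hn := by
      rw [← hnP, ← sub_eq_add_neg, hR]
    have hY : Y ≠ 0 := by
      intro hY
      apply hT
      rw [hR]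
      exact ((isR a b).add_self two_ne_zero hn).2 hY
    have hqR := crv_eqn.mp hn.1
    have hprod : (X + 0) * (X + a) * (X + b) ≠ 0 := by
      rw [← hqR]; exact pow_ne_zero _ hY
    have hQR : Q + Q = Affine.Point.some X Y hn := by rw [← hQ, hR]
    have key : ∀ c : ℚ, (c = 0 ∨ c = a ∨ c = b) → X + c ≠ 0 → ∃ s : ℚ, (x' + c) * (x + c) = s ^ 2 := by
      intro c hc hXc
      obtain ⟨z, hz⟩ := add_class h' hneg hn hx hadd c hc
      obtain ⟨s, hs⟩ := dup_sq hn hQR c hc
      have hs0 : s ≠ 0 := by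
        rintro rfl
        apply hXc
        rw [hs]; ring
      refine ⟨z / s, ?_⟩
      rw [div_pow, ← hz, hs]
      field_simp
    obtain ⟨s1, hs1⟩ := key 0 (Or.inl rfl) (fun h0 => hprod (by rw [h0]; ring))
    obtain ⟨s2, hs2⟩ := key a (Or.inr (Or.inl rfl)) (fun h0 => hprod (by rw [h0]; ring))
    constructor
    · apply sqf_eq hd hd' (s := s1 / (u * u'))
      rw [div_pow, ← hs1, add_zero, add_zero, k1, k1']
      field_simp
    · apply sqf_eq he he' (s := s2 / (v * v'))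
      rw [div_pow, ← hs2, k2, k2']
      field_simp

/-- the point set is infinite iff the set of abscissas is -/
lemma PS_inf_iff {a b d e : ℤ} (ha : a ≠ 0) (hb : b ≠ 0) (hab : a ≠ b) :
    (PS a b d e).Infinite ↔ (XS a b d e).Infinite := by
  rw [← not_iff_not, Set.not_infinite, Set.not_infinite]
  constructor
  · intro hf
    refine Set.Finite.subset (hf.image (fun P : GG a b => P.xRep 0)) ?_
    rintro x ⟨u, v, w, hu, hv, hw, k1, k2, k3⟩
    have hn : (crv (0 : ℚ) (a : ℚ) (b : ℚ)).toAffine.Nonsingular x (d * e * u * v * w) :=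
      crv_nonsing (q12 ha) (q12 hb) (q23 hab) (by rw [k2, k3, add_zero, k1]; ring)
    refine ⟨Affine.Point.some x (d * e * u * v * w) hn, ⟨x, _, hn, rfl, u, v, w, hu, hv, hw, k1, k2, k3⟩, ?_⟩
    simp
  · intro hf
    have h1 : (⋃ x ∈ XS a b d e, {P : GG a b | ∃ (y : ℚ) (h : (crv (0 : ℚ) (a : ℚ) (b : ℚ)).toAffine.Nonsingular x y),
        P = Affine.Point.some x y h}).Finite := by
      refine hf.biUnion (fun x _ => ?_)
      by_cases hx : ∃ y, (crv (0 : ℚ) (a : ℚ) (b : ℚ)).toAffine.Nonsingular x y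
      · obtain ⟨y0, hy0⟩ := hx
        have q0 := crv_eqn.mp hy0.1
        have hneg : (crv (0 : ℚ) (a : ℚ) (b : ℚ)).toAffine.Nonsingular x (-y0) :=
          crv_nonsing (q12 ha) (q12 hb) (q23 hab) (by rw [← q0]; ring)
        refine Set.Finite.subset (Set.toFinite ({Affine.Point.some x y0 hy0,
          Affine.Point.some x (-y0) hneg} : Set (GG a b))) ?_
        rintro P ⟨y, h, rfl⟩
        have q := crv_eqn.mp h.1
        have : y = y0 ∨ y = -y0 := by
          apply sq_eq_sq_iff_eq_or_eq_neg.mp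
          rw [q, q0]
        rcases this with rfl | rfl
        · left; rfl
        · right; rfl
      · refine Set.Finite.subset Set.finite_empty ?_
        rintro P ⟨y, h, rfl⟩
        exact absurd ⟨y, h⟩ hx
    refine Set.Finite.subset h1 ?_
    rintro P ⟨x, y, h, rfl, hx⟩
    simp only [Set.mem_iUnion]
    exact ⟨x, hx, y, h, rfl⟩

/-- every point outside the 2-torsion has a class in the box -/
lemma has_class {a b : ℤ} (ha : a ≠ 0) (hb : b ≠ 0) (hab : a ≠ b) {P : GG a b}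
    (hP : P ∉ T2 a b) :
    ∃ d e : ℤ, Squarefree d ∧ Squarefree e ∧ |d| ≤ |a * b * (a - b)| ∧ |e| ≤ |a * b * (a - b)| ∧
      P ∈ PS a b d e := by
  rcases P with _ | ⟨x, y, h⟩
  · exfalso
    apply hP
    exact add_zero (0 : GG a b)
  · have hy : y ≠ 0 := by
      intro hy
      apply hP
      exact ((isR a b).add_self two_ne_zero h).2 hy
    have q := crv_eqn.mp h.1
    rw [add_zero] at q
    have hprod : x * (x + a) * (x + b) ≠ 0 := by rw [← q]; exact pow_ne_zero _ hy
    have hx : x ≠ 0 := fun h0 => hprod (by rw [h0]; ring)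
    have hxa : x + a ≠ 0 := fun h0 => hprod (by rw [h0]; ring)
    have hxb : x + b ≠ 0 := fun h0 => hprod (by rw [h0]; ring)
    obtain ⟨d, hd, u, hu, k1⟩ := sqf_rep x hx
    obtain ⟨e, he, v, hv, k2⟩ := sqf_rep (x + a) hxa
    have hdq : (d : ℚ) ≠ 0 := by exact_mod_cast hd.ne_zero
    have heq : (e : ℚ) ≠ 0 := by exact_mod_cast he.ne_zero
    have hab0 : a - b ≠ 0 := sub_ne_zero.mpr hab
    have hN : a * b * (a - b) ≠ 0 := mul_ne_zero (mul_ne_zero ha hb) hab0
    have d1 : d ∣ a * b := dvd_prod hd hy q hu k1 (mul_ne_zero ha hb)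
    have d2 : e ∣ (-a) * (b - a) := by
      refine dvd_prod (x := x + a) he hy ?_ hv k2 (mul_ne_zero (neg_ne_zero.mpr ha) (sub_ne_zero.mpr hab.symm))
      rw [q]; push_cast; ring
    refine ⟨d, e, hd, he, natAbs_le (d1.mul_right _) hN, natAbs_le ?_ hN, x, y, h, rfl,
      u, v, y / (d * e * u * v), hu, hv, ?_, k1, k2, ?_⟩
    · have : a * b * (a - b) = (-a) * (b - a) * b := by ring
      rw [this]; exact d2.mul_right _
    · positivity
    · have h5 : y ^ 2 = (d * u ^ 2) * (e * v ^ 2) * (x + b) := by rw [← k1, ← k2]; exact q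
      field_simp
      linear_combination (-1 : ℚ) * h5

end Pool.Agent.TH352.RC
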