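import Mathlib
import Pool.Agent.Helper566.FD.J7
import Pool.Agent.TH352.RC.RC2

set_option autoImplicit false

open Finset Encodable

namespace Pool.Agent.TH352.RC

open Pool.Agent.Helper566.FD.J7

/-- number of `k < n` with `p k`. -/
def cnt (p : ℕ → Bool) (n : ℕ) : ℕ :=
  Nat.rec 0 (fun k acc => acc + cond (p k) 1 0) n

lemma cnt_eq (p : ℕ → Bool) (n : ℕ) : cnt p n = ((range n).filter (fun k => p k = true)).card := by
  induction n with
  | zero => rfl
  | succ n ih =>
    have : cnt p (n + 1) = cnt p n + cond (p n) 1 0 := rfl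
    rw [this, ih, range_add_one, filter_insert]
    cases hp : p n
    · simp
    · rw [if_pos rfl, card_insert_of_notMem (by simp)]
      simp

lemma comp_cnt {α : Type*} [Primcodable α] {N : α → ℕ} {p : α → ℕ → Bool} (hN : Computable N)
    (hp : Computable₂ p) : Computable (fun a => cnt (p a) (N a)) := by
  unfold cnt
  refine Computable.nat_rec (f := N) (g := fun _ => 0) (h := fun a q => q.2 + cond (p a q.1) 1 0)
    hN (Computable.const 0) ?_
  have h1 : Computable (fun z : α × (ℕ × ℕ) => p z.1 z.2.1) :=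
    hp.comp Computable.fst (Computable.fst.comp Computable.snd)
  have h2 : Computable (fun z : α × (ℕ × ℕ) => cond (p z.1 z.2.1) 1 0) :=
    Computable.cond h1 (Computable.const 1) (Computable.const 0)
  exact (Primrec.nat_add.to_comp).comp (Computable.snd.comp Computable.snd) h2

/-- squarefreeness test -/
def sqb (n : ℤ) : Bool :=
  decide (n ≠ 0) && decide (cnt (fun k => decide ((n.toNat + (-n).toNat) % ((k + 2) * (k + 2)) = 0))
    (n.toNat + (-n).toNat) = 0)

lemma toNat_add (n : ℤ) : n.toNat + (-n).toNat = n.natAbs := by omega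

lemma sqb_iff (n : ℤ) : sqb n = true ↔ Squarefree n := by
  unfold sqb
  rw [toNat_add, cnt_eq]
  rw [Bool.and_eq_true, decide_eq_true_eq, decide_eq_true_eq, card_eq_zero, ← Int.squarefree_natAbs]
  constructor
  · rintro ⟨h0, h1⟩
    intro m hm
    by_contra hu
    rw [Nat.isUnit_iff] at hu
    have hn0 : n.natAbs ≠ 0 := Int.natAbs_ne_zero.mpr h0
    have hm0 : m ≠ 0 := by
      rintro rfl
      simp at hm
      exact h0 hm
    have hm2 : 2 ≤ m := by omega
    have hle : m * m ≤ n.natAbs := Nat.le_of_dvd (Nat.pos_of_ne_zero hn0) hm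
    have : m - 2 ∈ filter (fun k => decide (n.natAbs % ((k + 2) * (k + 2)) = 0) = true)
        (range n.natAbs) := by
      rw [mem_filter, mem_range, decide_eq_true_eq]
      constructor
      · nlinarith [Nat.sub_le m 2, Nat.le_mul_self m, Nat.sub_add_cancel hm2]
      · rw [Nat.sub_add_cancel hm2]
        exact Nat.mod_eq_zero_of_dvd hm
    rw [h1] at this
    simp at this
  · intro h
    refine ⟨?_, ?_⟩
    · rintro rfl
      exact h.ne_zero rfl
    · rw [filter_eq_empty_iff]
      intro k _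
      rw [decide_eq_true_eq]
      intro hk
      have h2 := h (k + 2) (Nat.dvd_of_mod_eq_zero hk)
      rw [Nat.isUnit_iff] at h2
      omega

lemma comp_abs : Computable (fun n : ℤ => n.toNat + (-n).toNat) :=
  (Primrec.nat_add.comp prim_toNat prim_toNat_neg).to_comp

lemma comp_sqb : Computable sqb := by
  unfold sqb
  have h1 : Computable (fun n : ℤ => decide (n ≠ 0)) := by
    have : Primrec (fun n : ℤ => !decide (n = 0)) :=
      Primrec.not.comp (Primrec.eq.decide.comp Primrec.id (Primrec.const 0))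
    refine this.to_comp.of_eq (fun n => ?_)
    by_cases h : n = 0 <;> simp [h]
  have h2 : Computable₂ (fun (n : ℤ) (k : ℕ) =>
      decide ((n.toNat + (-n).toNat) % ((k + 2) * (k + 2)) = 0)) := by
    have ha : Primrec (fun z : ℤ × ℕ => z.1.toNat + (-z.1).toNat) :=
      Primrec.nat_add.comp (prim_toNat.comp Primrec.fst) (prim_toNat_neg.comp Primrec.fst)
    have hk : Primrec (fun z : ℤ × ℕ => z.2 + 2) :=
      Primrec.nat_add.comp Primrec.snd (Primrec.const 2)
    have hm : Primrec (fun z : ℤ × ℕ => (z.1.toNat + (-z.1).toNat) % ((z.2 + 2) * (z.2 + 2))) :=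
      Primrec.nat_mod.comp ha (Primrec.nat_mul.comp hk hk)
    exact (Primrec.eq.decide.comp hm (Primrec.const 0)).to_comp
  have h3 := comp_cnt comp_abs h2
  have h4 : Computable (fun n : ℤ => decide (cnt (fun k => decide ((n.toNat + (-n).toNat) % ((k + 2) * (k + 2)) = 0))
    (n.toNat + (-n).toNat) = 0)) :=
    (Primrec.eq.decide.to_comp).comp h3 (Computable.const 0)
  exact (Primrec.and.to_comp).comp h1 h4

/-- bound -/
def bd (q : ℤ × ℤ) : ℕ :=
  (q.1 * q.2 * (q.1 - q.2)).toNat + (-(q.1 * q.2 * (q.1 - q.2))).toNat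

lemma comp_bd : Computable bd := by
  unfold bd
  have h1 : Primrec (fun q : ℤ × ℤ => q.1 * q.2 * (q.1 - q.2)) :=
    prim_int_mul.comp (prim_int_mul.comp Primrec.fst Primrec.snd)
      (prim_int_sub.comp Primrec.fst Primrec.snd)
  exact (Primrec.nat_add.comp (prim_toNat.comp h1) (prim_toNat_neg.comp h1)).to_comp

/-- first candidate -/
def cd (q : ℤ × ℤ) (i : ℕ) : ℤ × ℤ :=
  (((Nat.unpair i).1 : ℤ) - (bd q : ℤ), ((Nat.unpair i).2 : ℤ) - (bd q : ℤ))

lemma comp_cd : Computable₂ cd := by
  unfold cd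
  have hb : Computable (fun z : (ℤ × ℤ) × ℕ => (bd z.1 : ℤ)) :=
    prim_natCast.to_comp.comp (comp_bd.comp Computable.fst)
  have h1 : Computable (fun z : (ℤ × ℤ) × ℕ => ((Nat.unpair z.2).1 : ℤ)) :=
    prim_natCast.to_comp.comp (Computable.fst.comp (Computable.unpair.comp Computable.snd))
  have h2 : Computable (fun z : (ℤ × ℤ) × ℕ => ((Nat.unpair z.2).2 : ℤ)) :=
    prim_natCast.to_comp.comp (Computable.snd.comp (Computable.unpair.comp Computable.snd))
  exact Computable.pair (prim_int_sub.to_comp.comp h1 hb) (prim_int_sub.to_comp.comp h2 hb)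

lemma comp_clist : Computable (fun z : (ℤ × ℤ) × (ℤ × ℤ) => clist z.1.1 z.1.2 z.2.1 z.2.2) := by
  apply Primrec.to_comp
  unfold clist
  have a : Primrec (fun z : (ℤ × ℤ) × (ℤ × ℤ) => z.1.1) := Primrec.fst.comp Primrec.fst
  have b : Primrec (fun z : (ℤ × ℤ) × (ℤ × ℤ) => z.1.2) := Primrec.snd.comp Primrec.fst
  have d : Primrec (fun z : (ℤ × ℤ) × (ℤ × ℤ) => z.2.1) := Primrec.fst.comp Primrec.snd
  have e : Primrec (fun z : (ℤ × ℤ) × (ℤ × ℤ) => z.2.2) := Primrec.snd.comp Primrec.snd
  have da := prim_int_mul.comp d a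
  have de := prim_int_mul.comp d e
  have dd := prim_int_mul.comp d d
  have dab := prim_int_sub.comp da b
  have dab' := prim_int_add.comp da b
  have d1 := prim_int_sub.comp dd d
  have d2 := prim_int_add.comp dd d
  have c0 : Primrec (fun z : (ℤ × ℤ) × (ℤ × ℤ) => (0 : ℤ)) := Primrec.const 0
  have c2 : Primrec (fun z : (ℤ × ℤ) × (ℤ × ℤ) => (2 : ℤ)) := Primrec.const 2
  have nil1 : Primrec (fun z : (ℤ × ℤ) × (ℤ × ℤ) => ([] : List ℤ)) := Primrec.const []
  have nil2 : Primrec (fun z : (ℤ × ℤ) × (ℤ × ℤ) => ([] : List (List ℤ))) := Primrec.const []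
  have t1 := prim_int_mul.comp dab dab
  have t2 := prim_int_neg.comp (prim_int_mul.comp (prim_int_mul.comp c2 de) dab')
  have t3 := prim_int_mul.comp de de
  have t4 := prim_int_mul.comp (prim_int_mul.comp c2 d1) dab
  have t5 := prim_int_neg.comp (prim_int_mul.comp (prim_int_mul.comp c2 de) d2)
  have t6 := prim_int_mul.comp d1 d1
  have l1 := Primrec.list_cons.comp t1 (Primrec.list_cons.comp c0 (Primrec.list_cons.comp t2
    (Primrec.list_cons.comp c0 (Primrec.list_cons.comp t3 nil1))))
  have l3 := Primrec.list_cons.comp t4 (Primrec.list_cons.comp c0 (Primrec.list_cons.comp t5 nil1))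
  have l5 := Primrec.list_cons.comp t6 nil1
  exact Primrec.list_cons.comp l1 (Primrec.list_cons.comp nil1 (Primrec.list_cons.comp l3
    (Primrec.list_cons.comp nil1 (Primrec.list_cons.comp l5 nil2))))

/-- the size of the search space -/
def szN (q : ℤ × ℤ) : ℕ := (2 * bd q + 1) * (2 * bd q + 1)

lemma comp_szN : Computable szN := by
  unfold szN
  have h1 : Computable (fun q : ℤ × ℤ => 2 * bd q + 1) :=
    Primrec.nat_add.to_comp.comp (Primrec.nat_mul.to_comp.comp (Computable.const 2) comp_bd)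
      (Computable.const 1)
  exact Primrec.nat_mul.to_comp.comp h1 h1

/-- logarithm by counting -/
def lg (n : ℕ) : ℕ := cnt (fun k => decide (2 ^ (k + 2) < n)) n

lemma comp_lg : Computable lg := by
  unfold lg
  have h : Computable₂ (fun (n : ℕ) (k : ℕ) => decide (2 ^ (k + 2) < n)) := by
    have h1 : Primrec (fun z : ℕ × ℕ => 2 ^ (z.2 + 2)) :=
      prim_pow2.comp (Primrec.nat_add.comp Primrec.snd (Primrec.const 2))
    exact (Primrec.nat_lt.decide.comp h1 Primrec.fst).to_comp
  exact comp_cnt Computable.id h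

lemma lg_zero : lg 0 = 0 := rfl

lemma lg_pow (r : ℕ) : lg (2 ^ r * 4) = r := by
  unfold lg
  rw [cnt_eq]
  have : filter (fun k => decide (2 ^ (k + 2) < 2 ^ r * 4) = true) (range (2 ^ r * 4)) = range r := by
    ext k
    rw [mem_filter, mem_range, mem_range, decide_eq_true_eq]
    have e : (2 : ℕ) ^ r * 4 = 2 ^ (r + 2) := by rw [pow_add]; norm_num
    rw [e, Nat.pow_lt_pow_iff_right (by norm_num)]
    have := Nat.lt_two_pow_self (n := r + 2)
    omega
  rw [this, card_range]

/-- the computable function -/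
theorem comp_main (P : List (List ℤ) → Prop) (hP : ComputablePred P) :
    ∃ g : ℤ × ℤ → ℕ → Bool, Computable₂ g ∧
      (∀ q i, g q i = true ↔ Squarefree (cd q i).1 ∧ Squarefree (cd q i).2 ∧
        P (clist q.1 q.2 (cd q i).1 (cd q i).2)) ∧
      Computable (fun q => lg (cnt (g q) (szN q))) := by
  obtain ⟨inst, hc⟩ := hP
  have hcd : Computable (fun z : (ℤ × ℤ) × ℕ => cd z.1 z.2) := comp_cd
  have s1 := comp_sqb.comp (Computable.fst.comp hcd)
  have s2 := comp_sqb.comp (Computable.snd.comp hcd)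
  have s3 := hc.comp (comp_clist.comp (Computable.pair Computable.fst hcd))
  have hg : Computable₂ (fun (q : ℤ × ℤ) (i : ℕ) => (sqb (cd q i).1 && sqb (cd q i).2) &&
      decide (P (clist q.1 q.2 (cd q i).1 (cd q i).2))) :=
    Primrec.and.to_comp.comp (Primrec.and.to_comp.comp s1 s2) s3
  refine ⟨_, hg, ?_, ?_⟩
  · intro q i
    rw [Bool.and_eq_true, Bool.and_eq_true, sqb_iff, sqb_iff, decide_eq_true_eq, and_assoc]
  · exact comp_lg.comp (comp_cnt comp_szN hg)

end Pool.Agent.TH352.RC
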