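import Mathlib
import Pool.Agent.TH352.RC.RC3
import Pool.Agent.TH352.RC.RC4

set_option autoImplicit false

open Finset WeierstrassCurve

namespace Pool.Agent.TH352.RC

open Pool.Agent.H437R2.Man.MW Pool.Agent.TH841.SH Pool.Agent.TeamU

/-- the set of generic classes -/
def CC (a b : ℤ) : Set (ℤ × ℤ) :=
  {c | Squarefree c.1 ∧ Squarefree c.2 ∧ (XS a b c.1 c.2).Infinite}

lemma XS_box {a b d e : ℤ} (ha : a ≠ 0) (hb : b ≠ 0) (hab : a ≠ b) (hd : Squarefree d)
    (he : Squarefree e) {x : ℚ} (hx : x ∈ XS a b d e) :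
    |d| ≤ |a * b * (a - b)| ∧ |e| ≤ |a * b * (a - b)| := by
  obtain ⟨u, v, w, hu, hv, hw, k1, k2, k3⟩ := hx
  have hdq : (d : ℚ) ≠ 0 := by exact_mod_cast hd.ne_zero
  have heq : (e : ℚ) ≠ 0 := by exact_mod_cast he.ne_zero
  have hab0 : a - b ≠ 0 := sub_ne_zero.mpr hab
  have hN : a * b * (a - b) ≠ 0 := mul_ne_zero (mul_ne_zero ha hb) hab0
  have hy : (d * e * u * v * w : ℚ) ≠ 0 := by positivity
  have q : (d * e * u * v * w : ℚ) ^ 2 = x * (x + a) * (x + b) := by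
    rw [k2, k3, k1]; ring
  have d1 : d ∣ a * b := dvd_prod hd hy q hu k1 (mul_ne_zero ha hb)
  have d2 : e ∣ (-a) * (b - a) := by
    refine dvd_prod (x := x + a) he hy ?_ hv k2
      (mul_ne_zero (neg_ne_zero.mpr ha) (sub_ne_zero.mpr hab.symm))
    rw [q]; push_cast; ring
  refine ⟨natAbs_le (d1.mul_right _) hN, natAbs_le ?_ hN⟩
  have : a * b * (a - b) = (-a) * (b - a) * b := by ring
  rw [this]; exact d2.mul_right _

lemma mk_eq_iff {a b : ℤ} (P P' : GG a b) :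
    (QuotientAddGroup.mk (s := (zsmulAddGroupHom (α := GG a b) 2).range) P) =
      QuotientAddGroup.mk P' ↔ ∃ Q : GG a b, P' = P + (Q + Q) := by
  rw [QuotientAddGroup.eq]
  constructor
  · rintro ⟨Q, hQ⟩
    refine ⟨Q, ?_⟩
    have h2 : (zsmulAddGroupHom (α := GG a b) 2) Q = Q + Q := two_zsmul Q
    rw [h2] at hQ
    rw [hQ]; abel
  · rintro ⟨Q, hQ⟩
    refine ⟨Q, ?_⟩
    have h2 : (zsmulAddGroupHom (α := GG a b) 2) Q = Q + Q := two_zsmul Q
    rw [h2, hQ]; abel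

lemma fiber_fin {a b : ℤ} (g R : GG a b) : {Q : GG a b | g + (Q + Q) = R}.Finite := by
  by_cases h : ∃ Q0 : GG a b, g + (Q0 + Q0) = R
  · obtain ⟨Q0, h0⟩ := h
    refine Set.Finite.subset ((T2_fin a b).image (fun T => T + Q0)) ?_
    intro Q hQ
    refine ⟨Q - Q0, ?_, by simp⟩
    change g + (Q + Q) = R at hQ
    change Q - Q0 + (Q - Q0) = 0
    have : Q - Q0 + (Q - Q0) = (g + (Q + Q)) - (g + (Q0 + Q0)) := by abel
    rw [this, hQ, h0, sub_self]
  · refine Set.Finite.subset Set.finite_empty ?_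
    intro Q hQ
    exact absurd ⟨Q, hQ⟩ h

lemma coset_inf {a b : ℤ} (hinf : Infinite (GG a b)) (g : GG a b) :
    {P : GG a b | ∃ Q, P = g + (Q + Q)}.Infinite := by
  intro hf
  have h1 : (⋃ R ∈ {P : GG a b | ∃ Q, P = g + (Q + Q)}, {Q : GG a b | g + (Q + Q) = R}).Finite :=
    hf.biUnion (fun R _ => fiber_fin g R)
  apply Set.infinite_univ (α := GG a b)
  refine Set.Finite.subset h1 ?_
  intro Q _
  simp only [Set.mem_iUnion]
  exact ⟨g + (Q + Q), ⟨Q, rfl⟩, rfl⟩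

lemma box_fin (a b : ℤ) : {c : ℤ × ℤ | |c.1| ≤ |a * b * (a - b)| ∧ |c.2| ≤ |a * b * (a - b)|}.Finite := by
  refine Set.Finite.subset ((Set.finite_Icc (-|a * b * (a - b)|) (|a * b * (a - b)|)).prod
    (Set.finite_Icc (-|a * b * (a - b)|) (|a * b * (a - b)|))) ?_
  rintro ⟨d, e⟩ ⟨h1, h2⟩
  exact ⟨abs_le.mp h1, abs_le.mp h2⟩

lemma coset_class {a b : ℤ} (ha : a ≠ 0) (hb : b ≠ 0) (hab : a ≠ b) (hinf : Infinite (GG a b))
    (g : GG a b) : ∃ c ∈ CC a b, ∃ P ∈ PS a b c.1 c.2, ∃ Q, P = g + (Q + Q) := by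
  by_contra hcon
  push Not at hcon
  have h1 := (coset_inf hinf g).sdiff (T2_fin a b)
  apply h1
  have h2 : (⋃ c ∈ {c : ℤ × ℤ | |c.1| ≤ |a * b * (a - b)| ∧ |c.2| ≤ |a * b * (a - b)|},
      {P : GG a b | Squarefree c.1 ∧ Squarefree c.2 ∧ (∃ Q, P = g + (Q + Q)) ∧ P ∈ PS a b c.1 c.2}).Finite := by
    refine (box_fin a b).biUnion (fun c _ => ?_)
    by_contra hn
    have hn' : {P : GG a b | Squarefree c.1 ∧ Squarefree c.2 ∧ (∃ Q, P = g + (Q + Q)) ∧
      P ∈ PS a b c.1 c.2}.Infinite := hn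
    obtain ⟨P, s1, s2, ⟨Q, hQ⟩, hP⟩ := hn'.nonempty
    have h3 : (PS a b c.1 c.2).Infinite := hn'.mono (fun R hR => hR.2.2.2)
    exact hcon c ⟨s1, s2, (PS_inf_iff ha hb hab).mp h3⟩ P hP Q hQ
  refine Set.Finite.subset h2 ?_
  rintro P ⟨⟨Q, hQ⟩, hP⟩
  obtain ⟨d, e, s1, s2, b1, b2, hc⟩ := has_class ha hb hab hP
  simp only [Set.mem_iUnion]
  exact ⟨(d, e), ⟨b1, b2⟩, s1, s2, ⟨Q, hQ⟩, hc⟩

lemma card_CC {a b : ℤ} (ha : a ≠ 0) (hb : b ≠ 0) (hab : a ≠ b) (hinf : Infinite (GG a b)) :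
    Nat.card (CC a b) = Nat.card (GG a b ⧸ (zsmulAddGroupHom (α := GG a b) 2).range) := by
  classical
  have hne : ∀ c : CC a b, (PS a b c.1.1 c.1.2).Nonempty := fun c =>
    ((PS_inf_iff ha hb hab).mpr c.2.2.2).nonempty
  let pt : CC a b → GG a b := fun c => (hne c).some
  have hpt : ∀ c : CC a b, pt c ∈ PS a b c.1.1 c.1.2 := fun c => (hne c).some_mem
  let f : CC a b → GG a b ⧸ (zsmulAddGroupHom (α := GG a b) 2).range :=
    fun c => QuotientAddGroup.mk (pt c)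
  refine Nat.card_congr (Equiv.ofBijective f ⟨?_, ?_⟩)
  · intro c c' hcc
    obtain ⟨Q, hQ⟩ := (mk_eq_iff (pt c) (pt c')).mp hcc
    have h1 : (PS a b c'.1.1 c'.1.2).Infinite := (PS_inf_iff ha hb hab).mpr c'.2.2.2
    have h2 : ({pt c, -pt c} ∪ (fun T => T + pt c) '' (T2 a b) : Set (GG a b)).Finite :=
      (Set.toFinite _).union ((T2_fin a b).image _)
    obtain ⟨P', hP', hn⟩ := (h1.sdiff h2).nonempty
    obtain ⟨Q', hQ'⟩ := same_class ha hb hab c'.2.1.ne_zero c'.2.2.1.ne_zero (hpt c') hP'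
    have h3 : P' - pt c = (Q + Q') + (Q + Q') := by
      rw [hQ', hQ]; abel
    have h4 : P' - pt c ∉ T2 a b := by
      intro h0
      apply hn
      right
      exact ⟨P' - pt c, h0, by simp⟩
    have h5 : P' ≠ pt c := fun h0 => hn (Or.inl (Or.inl h0))
    have h6 : P' ≠ - pt c := fun h0 => hn (Or.inl (Or.inr h0))
    obtain ⟨e1, e2⟩ := class_eq ha hb hab c.2.1 c.2.2.1 c'.2.1 c'.2.2.1 (hpt c) hP' h3 h4 h5 h6
    apply Subtype.ext
    exact Prod.ext e1 e2
  · intro q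
    obtain ⟨g, rfl⟩ := QuotientAddGroup.mk_surjective q
    obtain ⟨c, hc, P, hP, Q, hQ⟩ := coset_class ha hb hab hinf g
    refine ⟨⟨c, hc⟩, ?_⟩
    obtain ⟨Q', hQ'⟩ := same_class ha hb hab hc.1.ne_zero hc.2.1.ne_zero (hpt ⟨c, hc⟩) hP
    have h1 : (QuotientAddGroup.mk (s := (zsmulAddGroupHom (α := GG a b) 2).range) (pt ⟨c, hc⟩)) =
      QuotientAddGroup.mk P := (mk_eq_iff _ _).mpr ⟨Q', hQ'⟩
    have h2 : (QuotientAddGroup.mk (s := (zsmulAddGroupHom (α := GG a b) 2).range) g) =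
      QuotientAddGroup.mk P := (mk_eq_iff _ _).mpr ⟨Q, hQ⟩
    exact h1.trans h2.symm

lemma ker_card {a b : ℤ} (ha : a ≠ 0) (hb : b ≠ 0) (hab : a ≠ b) :
    Nat.card (zsmulAddGroupHom (α := GG a b) 2).ker = 4 := by
  classical
  have hT1 : (crv (0 : ℚ) (a : ℚ) (b : ℚ)).toAffine.Nonsingular 0 0 := by
    apply crv_nonsing (q12 ha) (q12 hb) (q23 hab); ring
  have hT2 : (crv (0 : ℚ) (a : ℚ) (b : ℚ)).toAffine.Nonsingular (-a) 0 := by
    apply crv_nonsing (q12 ha) (q12 hb) (q23 hab); ring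
  have hT3 : (crv (0 : ℚ) (a : ℚ) (b : ℚ)).toAffine.Nonsingular (-b) 0 := by
    apply crv_nonsing (q12 ha) (q12 hb) (q23 hab); ring
  have haq : (a : ℚ) ≠ 0 := by exact_mod_cast ha
  have hbq : (b : ℚ) ≠ 0 := by exact_mod_cast hb
  have habq : (a : ℚ) ≠ b := by exact_mod_cast hab
  let S : Finset (GG a b) :=
    {0, Affine.Point.some _ _ hT1, Affine.Point.some _ _ hT2, Affine.Point.some _ _ hT3}
  have hS : (((zsmulAddGroupHom (α := GG a b) 2).ker : AddSubgroup (GG a b)) : Set (GG a b)) = ↑S := by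
    ext T
    rw [SetLike.mem_coe, AddMonoidHom.mem_ker]
    have h2 : (zsmulAddGroupHom (α := GG a b) 2) T = T + T := two_zsmul T
    rw [h2]
    simp only [S, coe_insert, coe_singleton, Set.mem_insert_iff, Set.mem_singleton_iff]
    constructor
    · intro h
      rcases (isR a b).tors two_ne_zero h with h | ⟨_, h⟩ | ⟨_, h⟩ | ⟨_, h⟩
      · left; exact h
      · right; left; exact h
      · right; right; left; exact h
      · right; right; right; exact h
    · rintro (rfl | rfl | rfl | rfl)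
      · exact add_zero _
      · exact ((isR a b).add_self two_ne_zero hT1).2 rfl
      · exact ((isR a b).add_self two_ne_zero hT2).2 rfl
      · exact ((isR a b).add_self two_ne_zero hT3).2 rfl
  have h4 : S.card = 4 := by
    simp only [S]
    rw [card_insert_of_notMem, card_insert_of_notMem, card_insert_of_notMem, card_singleton]
    · simp only [mem_singleton, Affine.Point.some.injEq]
      intro h; apply habq; linarith [h.1]
    · simp only [mem_insert, mem_singleton, Affine.Point.some.injEq]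
      rintro (h | h)
      · apply haq; linarith [h.1]
      · apply hbq; linarith [h.1]
    · simp only [mem_insert, mem_singleton]
      rintro (h | h | h)
      · exact Affine.Point.some_ne_zero _ h.symm
      · exact Affine.Point.some_ne_zero _ h.symm
      · exact Affine.Point.some_ne_zero _ h.symm
  have h5 : Nat.card (zsmulAddGroupHom (α := GG a b) 2).ker =
      (((zsmulAddGroupHom (α := GG a b) 2).ker : AddSubgroup (GG a b)) : Set (GG a b)).ncard := rfl
  rw [h5, hS, Set.ncard_coe_finset, h4]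

lemma rank_eq {a b : ℤ} (ha : a ≠ 0) (hb : b ≠ 0) (hab : a ≠ b) :
    Module.finrank ℤ (GG a b) = lg (Nat.card (CC a b)) := by
  have hfg : AddGroup.FG (GG a b) := pt_fg (q12 ha) (q12 hb) (q23 hab)
  have : Module.Finite ℤ (GG a b) := Module.Finite.iff_addGroup_fg.mpr hfg
  rcases finite_or_infinite (GG a b) with hfin | hinf
  · rw [finrank_zero_of_finite]
    have h0 : CC a b = ∅ := by
      ext c
      simp only [Set.mem_empty_iff_false, iff_false]
      rintro ⟨_, _, h⟩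
      exact (PS_inf_iff ha hb hab).mpr h (Set.toFinite _)
    rw [h0]
    simp [lg_zero]
  · rw [card_CC ha hb hab hinf, card_quot_two, ker_card ha hb hab, lg_pow]

lemma bd_eq (a b : ℤ) : ((bd (a, b) : ℕ) : ℤ) = |a * b * (a - b)| := by
  unfold bd
  rw [toNat_add]
  exact Int.natCast_natAbs _

lemma cnt_CC {a b : ℤ} (ha : a ≠ 0) (hb : b ≠ 0) (hab : a ≠ b) (g : ℤ × ℤ → ℕ → Bool)
    (hg : ∀ q i, g q i = true ↔ Squarefree (cd q i).1 ∧ Squarefree (cd q i).2 ∧
        ZInf (clist q.1 q.2 (cd q i).1 (cd q i).2)) :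
    cnt (g (a, b)) (szN (a, b)) = Nat.card (CC a b) := by
  rw [cnt_eq]
  have hinj : Function.Injective (cd (a, b)) := by
    intro i j hij
    unfold cd at hij
    simp only [Prod.mk.injEq, sub_left_inj, Nat.cast_inj] at hij
    have : Nat.unpair i = Nat.unpair j := Prod.ext hij.1 hij.2
    rw [← Nat.pair_unpair i, ← Nat.pair_unpair j, this]
  have hset : CC a b = cd (a, b) '' ↑((range (szN (a, b))).filter (fun k => g (a, b) k = true)) := by
    ext c
    simp only [Set.mem_image, coe_filter, mem_range, Set.mem_ofPred_eq]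
    constructor
    · rintro ⟨s1, s2, hX⟩
      obtain ⟨x, hx⟩ := hX.nonempty
      obtain ⟨b1, b2⟩ := XS_box ha hb hab s1 s2 hx
      rw [← bd_eq] at b1 b2
      obtain ⟨b1, b1'⟩ := abs_le.mp b1
      obtain ⟨b2, b2'⟩ := abs_le.mp b2
      have e0 : cd (a, b) (Nat.pair (c.1 + bd (a, b)).toNat (c.2 + bd (a, b)).toNat) = c := by
        unfold cd
        rw [Nat.unpair_pair]
        apply Prod.ext
        · show (((c.1 + bd (a, b)).toNat : ℕ) : ℤ) - _ = _
          rw [Int.toNat_of_nonneg (by linarith)]; ring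
        · show (((c.2 + bd (a, b)).toNat : ℕ) : ℤ) - _ = _
          rw [Int.toNat_of_nonneg (by linarith)]; ring
      refine ⟨Nat.pair (c.1 + bd (a, b)).toNat (c.2 + bd (a, b)).toNat, ⟨?_, ?_⟩, e0⟩
      · have h1 := Nat.pair_lt_max_add_one_sq (c.1 + bd (a, b)).toNat (c.2 + bd (a, b)).toNat
        refine lt_of_lt_of_le h1 ?_
        unfold szN
        rw [sq]
        have h2 : max (c.1 + bd (a, b)).toNat (c.2 + bd (a, b)).toNat + 1 ≤ 2 * bd (a, b) + 1 := by
          omega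
        exact Nat.mul_le_mul h2 h2
      · rw [hg, e0]
        exact ⟨s1, s2, (Z_inf_iff s1.ne_zero s2.ne_zero hab).mpr hX⟩
    · rintro ⟨k, ⟨_, hk⟩, rfl⟩
      rw [hg] at hk
      exact ⟨hk.1, hk.2.1, (Z_inf_iff hk.1.ne_zero hk.2.1.ne_zero hab).mp hk.2.2⟩
  have h1 : Nat.card (CC a b) = (CC a b).ncard := rfl
  rw [h1, hset, Set.ncard_image_of_injective _ hinj, Set.ncard_coe_finset]

theorem main (h : ComputablePred ZInf) :
    Computable (fun q : ℤ × ℤ => if q.1 ≠ 0 ∧ q.2 ≠ 0 ∧ q.1 ≠ q.2 then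
      Module.finrank ℤ ((⟨0, (q.1 : ℚ) + q.2, 0, (q.1 : ℚ) * q.2, 0⟩ :
        WeierstrassCurve ℚ).toAffine.Point) else 0) := by
  obtain ⟨g, _, hg, hc⟩ := comp_main ZInf h
  open Pool.Agent.Helper566.FD.J7 in
  have h0 : Computable (fun q : ℤ × ℤ => !(decide (q.1 = 0) || decide (q.2 = 0) || decide (q.1 = q.2))) :=
    (Primrec.not.comp (Primrec.or.comp (Primrec.or.comp
      (Primrec.eq.decide.comp Primrec.fst (Primrec.const 0))
      (Primrec.eq.decide.comp Primrec.snd (Primrec.const 0)))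
      (Primrec.eq.decide.comp Primrec.fst Primrec.snd))).to_comp
  refine (Computable.cond h0 hc (Computable.const 0)).of_eq (fun q => ?_)
  obtain ⟨a, b⟩ := q
  by_cases hq : a ≠ 0 ∧ b ≠ 0 ∧ a ≠ b
  · obtain ⟨ha, hb, hab⟩ := hq
    have e1 : (⟨0, (a : ℚ) + b, 0, (a : ℚ) * b, 0⟩ : WeierstrassCurve ℚ) = crv (0 : ℚ) (a : ℚ) (b : ℚ) := by
      simp [crv]
    simp only [ha, hb, hab, decide_false, Bool.or_self, Bool.not_false, cond_true]
    rw [if_pos ⟨ha, hb, hab⟩, cnt_CC ha hb hab g hg, ← rank_eq ha hb hab, e1]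
  · rw [if_neg hq]
    have : (!(decide (a = 0) || decide (b = 0) || decide (a = b))) = false := by
      simp only [Bool.not_eq_false', Bool.or_eq_true, decide_eq_true_eq]
      by_contra hn
      push Not at hn
      exact hq ⟨hn.1.1, hn.1.2, hn.2⟩
    simp only [this, cond_false]

end Pool.Agent.TH352.RC
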