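import Mathlib
import Pool.Agent.TH352.RC.RC5

set_option autoImplicit false

open Finset WeierstrassCurve

namespace Pool.Agent.TH352.RC

open Pool.Agent.H437R2.Man.MW Pool.Agent.TH841.SH Pool.Agent.TeamU Pool.Agent.Helper566.FD.J7

/-- test whether `k` codes a point of class `(d, e)` -/
def tst (z : (ℤ × ℤ) × (ℤ × ℤ)) (k : ℕ) : Bool :=
  decide (z.2.1 * ((((k.unpair.1).unpair.1 + 1 : ℕ) : ℤ) * (((k.unpair.1).unpair.1 + 1 : ℕ) : ℤ)) +
      z.1.1 * ((((k.unpair.2).unpair.2 + 1 : ℕ) : ℤ) * (((k.unpair.2).unpair.2 + 1 : ℕ) : ℤ)) =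
      z.2.2 * ((((k.unpair.1).unpair.2 + 1 : ℕ) : ℤ) * (((k.unpair.1).unpair.2 + 1 : ℕ) : ℤ))) &&
  decide (z.2.1 * ((((k.unpair.1).unpair.1 + 1 : ℕ) : ℤ) * (((k.unpair.1).unpair.1 + 1 : ℕ) : ℤ)) +
      z.1.2 * ((((k.unpair.2).unpair.2 + 1 : ℕ) : ℤ) * (((k.unpair.2).unpair.2 + 1 : ℕ) : ℤ)) =
      (z.2.1 * z.2.2) * ((((k.unpair.2).unpair.1 + 1 : ℕ) : ℤ) * (((k.unpair.2).unpair.1 + 1 : ℕ) : ℤ)))

lemma comp_tst : Computable₂ tst := by
  have k0 : Primrec (fun z : ((ℤ × ℤ) × (ℤ × ℤ)) × ℕ => z.2) := Primrec.snd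
  have u1 : Primrec (fun z : ((ℤ × ℤ) × (ℤ × ℤ)) × ℕ => z.2.unpair.1) :=
    Primrec.fst.comp (Primrec.unpair.comp k0)
  have u2 : Primrec (fun z : ((ℤ × ℤ) × (ℤ × ℤ)) × ℕ => z.2.unpair.2) :=
    Primrec.snd.comp (Primrec.unpair.comp k0)
  have u11 : Primrec (fun z : ((ℤ × ℤ) × (ℤ × ℤ)) × ℕ => (((z.2.unpair.1).unpair.1 + 1 : ℕ) : ℤ)) :=
    prim_natCast.comp (Primrec.succ.comp (Primrec.fst.comp (Primrec.unpair.comp u1)))
  have u12 : Primrec (fun z : ((ℤ × ℤ) × (ℤ × ℤ)) × ℕ => (((z.2.unpair.1).unpair.2 + 1 : ℕ) : ℤ)) :=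
    prim_natCast.comp (Primrec.succ.comp (Primrec.snd.comp (Primrec.unpair.comp u1)))
  have u21 : Primrec (fun z : ((ℤ × ℤ) × (ℤ × ℤ)) × ℕ => (((z.2.unpair.2).unpair.1 + 1 : ℕ) : ℤ)) :=
    prim_natCast.comp (Primrec.succ.comp (Primrec.fst.comp (Primrec.unpair.comp u2)))
  have u22 : Primrec (fun z : ((ℤ × ℤ) × (ℤ × ℤ)) × ℕ => (((z.2.unpair.2).unpair.2 + 1 : ℕ) : ℤ)) :=
    prim_natCast.comp (Primrec.succ.comp (Primrec.snd.comp (Primrec.unpair.comp u2)))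
  have a : Primrec (fun z : ((ℤ × ℤ) × (ℤ × ℤ)) × ℕ => z.1.1.1) :=
    Primrec.fst.comp (Primrec.fst.comp Primrec.fst)
  have b : Primrec (fun z : ((ℤ × ℤ) × (ℤ × ℤ)) × ℕ => z.1.1.2) :=
    Primrec.snd.comp (Primrec.fst.comp Primrec.fst)
  have d : Primrec (fun z : ((ℤ × ℤ) × (ℤ × ℤ)) × ℕ => z.1.2.1) :=
    Primrec.fst.comp (Primrec.snd.comp Primrec.fst)
  have e : Primrec (fun z : ((ℤ × ℤ) × (ℤ × ℤ)) × ℕ => z.1.2.2) :=
    Primrec.snd.comp (Primrec.snd.comp Primrec.fst)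
  have pp := prim_int_mul.comp u11 u11
  have qq := prim_int_mul.comp u12 u12
  have ss := prim_int_mul.comp u21 u21
  have mm := prim_int_mul.comp u22 u22
  have l1 := prim_int_add.comp (prim_int_mul.comp d pp) (prim_int_mul.comp a mm)
  have l2 := prim_int_add.comp (prim_int_mul.comp d pp) (prim_int_mul.comp b mm)
  have r1 := prim_int_mul.comp e qq
  have r2 := prim_int_mul.comp (prim_int_mul.comp d e) ss
  exact (Primrec.and.comp (Primrec.eq.decide.comp l1 r1) (Primrec.eq.decide.comp l2 r2)).to_comp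

/-- integrality of rational numbers with a common denominator -/
lemma common_den (u v w : ℚ) (hu : u ≠ 0) (hv : v ≠ 0) (hw : w ≠ 0) :
    ∃ p q s m : ℕ, u ^ 2 = ((p + 1 : ℕ) : ℚ) ^ 2 / ((m + 1 : ℕ) : ℚ) ^ 2 ∧
      v ^ 2 = ((q + 1 : ℕ) : ℚ) ^ 2 / ((m + 1 : ℕ) : ℚ) ^ 2 ∧
      w ^ 2 = ((s + 1 : ℕ) : ℚ) ^ 2 / ((m + 1 : ℕ) : ℚ) ^ 2 := by
  have key : ∀ (t : ℚ) (n : ℕ), t ≠ 0 → n ≠ 0 → ∃ p : ℕ,
      t ^ 2 = ((p + 1 : ℕ) : ℚ) ^ 2 / ((t.den * n : ℕ) : ℚ) ^ 2 := by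
    intro t n ht hn
    have h1 : t.num.natAbs * n ≠ 0 := mul_ne_zero (by simpa using ht) hn
    refine ⟨t.num.natAbs * n - 1, ?_⟩
    rw [Nat.sub_add_cancel (Nat.one_le_iff_ne_zero.mpr h1)]
    have h2 : ((t.num.natAbs : ℕ) : ℚ) ^ 2 = (t.num : ℚ) ^ 2 := by
      rw [Nat.cast_natAbs, Int.cast_abs, sq_abs]
    have h3 : t * t.den = t.num := Rat.mul_den_eq_num t
    have h4 : (t.den : ℚ) ≠ 0 := by exact_mod_cast t.den_nz
    have h5 : (n : ℚ) ≠ 0 := by exact_mod_cast hn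
    push_cast
    rw [mul_pow, mul_pow]
    have h6 : ((t.num.natAbs : ℕ) : ℚ) ^ 2 = t ^ 2 * (t.den : ℚ) ^ 2 := by
      rw [h2, ← h3]; ring
    rw [h6]
    field_simp
  have du := u.den_nz
  have dv := v.den_nz
  have dw := w.den_nz
  obtain ⟨p, hp⟩ := key u (v.den * w.den) hu (mul_ne_zero dv dw)
  obtain ⟨q, hq⟩ := key v (u.den * w.den) hv (mul_ne_zero du dw)
  obtain ⟨s, hs⟩ := key w (u.den * v.den) hw (mul_ne_zero du dv)
  have hM : u.den * v.den * w.den ≠ 0 := mul_ne_zero (mul_ne_zero du dv) dw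
  have hm : u.den * v.den * w.den - 1 + 1 = u.den * v.den * w.den :=
    Nat.sub_add_cancel (Nat.one_le_iff_ne_zero.mpr hM)
  refine ⟨p, q, s, u.den * v.den * w.den - 1, ?_, ?_, ?_⟩
  · rw [hm, hp]; push_cast; ring
  · rw [hm, hq]; push_cast; ring
  · rw [hm, hs]; push_cast; ring

lemma tst_iff (a b d e : ℤ) : (XS a b d e).Nonempty ↔ ∃ k, tst ((a, b), (d, e)) k = true := by
  constructor
  · rintro ⟨x, u, v, w, hu, hv, hw, k1, k2, k3⟩
    obtain ⟨p, q, s, m, h1, h2, h3⟩ := common_den u v w hu hv hw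
    refine ⟨Nat.pair (Nat.pair p q) (Nat.pair s m), ?_⟩
    unfold tst
    simp only [Nat.unpair_pair, Bool.and_eq_true, decide_eq_true_eq]
    have hm : ((m + 1 : ℕ) : ℚ) ≠ 0 := by exact_mod_cast Nat.succ_ne_zero m
    rw [h1] at k1
    rw [k1, h2] at k2
    rw [k1, h3] at k3
    field_simp at k2 k3
    constructor
    · have : (d : ℚ) * ((((p + 1 : ℕ) : ℤ) : ℚ) * (((p + 1 : ℕ) : ℤ) : ℚ)) +
        a * ((((m + 1 : ℕ) : ℤ) : ℚ) * (((m + 1 : ℕ) : ℤ) : ℚ)) =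
        e * ((((q + 1 : ℕ) : ℤ) : ℚ) * (((q + 1 : ℕ) : ℤ) : ℚ)) := by
        push_cast
        push_cast at k2
        linear_combination k2
      exact_mod_cast this
    · have : (d : ℚ) * ((((p + 1 : ℕ) : ℤ) : ℚ) * (((p + 1 : ℕ) : ℤ) : ℚ)) +
        b * ((((m + 1 : ℕ) : ℤ) : ℚ) * (((m + 1 : ℕ) : ℤ) : ℚ)) =
        (d * e) * ((((s + 1 : ℕ) : ℤ) : ℚ) * (((s + 1 : ℕ) : ℤ) : ℚ)) := by
        push_cast
        push_cast at k3
        linear_combination k3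
      exact_mod_cast this
  · rintro ⟨k, hk⟩
    unfold tst at hk
    rw [Bool.and_eq_true, decide_eq_true_eq, decide_eq_true_eq] at hk
    obtain ⟨h1, h2⟩ := hk
    simp only at h1 h2
    set p : ℕ := (k.unpair.1).unpair.1 with hp
    set q : ℕ := (k.unpair.1).unpair.2 with hq
    set s : ℕ := (k.unpair.2).unpair.1 with hs
    set m : ℕ := (k.unpair.2).unpair.2 with hm
    have h1' := congrArg (fun z : ℤ => (z : ℚ)) h1
    have h2' := congrArg (fun z : ℤ => (z : ℚ)) h2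
    push_cast at h1' h2'
    have nm : ((m : ℚ) + 1) ≠ 0 := by positivity
    have np : ((p : ℚ) + 1) ≠ 0 := by positivity
    have nq : ((q : ℚ) + 1) ≠ 0 := by positivity
    have ns : ((s : ℚ) + 1) ≠ 0 := by positivity
    refine ⟨d * (((p : ℚ) + 1) / ((m : ℚ) + 1)) ^ 2, ((p : ℚ) + 1) / ((m : ℚ) + 1),
      ((q : ℚ) + 1) / ((m : ℚ) + 1), ((s : ℚ) + 1) / ((m : ℚ) + 1), div_ne_zero np nm,
      div_ne_zero nq nm, div_ne_zero ns nm, rfl, ?_, ?_⟩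
    · field_simp
      linear_combination h1'
    · field_simp
      linear_combination h2'

lemma cnt_pos_iff (p : ℕ → Bool) (n : ℕ) : 0 < cnt p n ↔ ∃ k < n, p k = true := by
  rw [cnt_eq, card_pos]
  constructor
  · rintro ⟨k, hk⟩
    rw [mem_filter, mem_range] at hk
    exact ⟨k, hk.1, hk.2⟩
  · rintro ⟨k, h1, h2⟩
    exact ⟨k, by rw [mem_filter, mem_range]; exact ⟨h1, h2⟩⟩

attribute [local irreducible] cnt sqb cd tst

/-- the class has a point below `B`. -/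
def hasb (y : ((ℤ × ℤ) × (ℤ × ℤ)) × ℕ) : Bool := decide (0 < cnt (tst y.1) y.2)

lemma comp_hasb : Computable hasb := by
  have h1 : Computable₂ (fun (y : ((ℤ × ℤ) × (ℤ × ℤ)) × ℕ) (k : ℕ) => tst y.1 k) :=
    comp_tst.comp (Computable.fst.comp Computable.fst) Computable.snd
  have h2 := comp_cnt (Computable.snd (α := ((ℤ × ℤ) × (ℤ × ℤ))) (β := ℕ)) h1
  exact Primrec.nat_lt.decide.to_comp.comp (Computable.const 0) h2

lemma hasb_iff (y : ((ℤ × ℤ) × (ℤ × ℤ)) × ℕ) : hasb y = true ↔ ∃ k < y.2, tst y.1 k = true := by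
  unfold hasb
  rw [decide_eq_true_eq, cnt_pos_iff]

attribute [local irreducible] hasb

/-- the `i`-th candidate class has a point below `B`. -/
def fnd (y : (ℤ × ℤ) × ℕ) (i : ℕ) : Bool :=
  (sqb (cd y.1 i).1 && sqb (cd y.1 i).2) && hasb ((y.1, cd y.1 i), y.2)

lemma comp_fnd : Computable₂ fnd := by
  have hcd : Computable (fun z : ((ℤ × ℤ) × ℕ) × ℕ => cd z.1.1 z.2) :=
    comp_cd.comp (Computable.fst.comp Computable.fst) Computable.snd
  have h1 : Computable (fun z : ((ℤ × ℤ) × ℕ) × ℕ => sqb (cd z.1.1 z.2).1) :=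
    comp_sqb.comp (Computable.fst.comp hcd)
  have h2 : Computable (fun z : ((ℤ × ℤ) × ℕ) × ℕ => sqb (cd z.1.1 z.2).2) :=
    comp_sqb.comp (Computable.snd.comp hcd)
  have h3 : Computable (fun z : ((ℤ × ℤ) × ℕ) × ℕ => ((z.1.1, cd z.1.1 z.2), z.1.2)) :=
    Computable.pair (Computable.pair (Computable.fst.comp Computable.fst) hcd)
      (Computable.snd.comp Computable.fst)
  have h4 : Computable (fun z : ((ℤ × ℤ) × ℕ) × ℕ => hasb ((z.1.1, cd z.1.1 z.2), z.1.2)) :=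
    comp_hasb.comp h3
  have h5 : Computable (fun z : ((ℤ × ℤ) × ℕ) × ℕ => (sqb (cd z.1.1 z.2).1 && sqb (cd z.1.1 z.2).2)) :=
    Primrec.and.to_comp.comp h1 h2
  have h6 : Computable (fun z : ((ℤ × ℤ) × ℕ) × ℕ => ((sqb (cd z.1.1 z.2).1 && sqb (cd z.1.1 z.2).2)
      && hasb ((z.1.1, cd z.1.1 z.2), z.1.2))) :=
    Primrec.and.to_comp.comp h5 h4
  exact h6

attribute [local irreducible] fnd

/-- the number of classes found below `B` -/
def fc (q : ℤ × ℤ) (B : ℕ) : ℕ := cnt (fnd (q, B)) (szN q)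

lemma comp_fc : Computable₂ fc := by
  have h1 : Computable (fun z : (ℤ × ℤ) × ℕ => szN z.1) := comp_szN.comp Computable.fst
  exact comp_cnt h1 comp_fnd

end Pool.Agent.TH352.RC
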