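import Mathlib
import Pool.Agent.TH352.RC.RC6

set_option autoImplicit false

open Finset WeierstrassCurve

namespace Pool.Agent.TH352.RC

open Pool.Agent.H437R2.Man.MW Pool.Agent.TH841.SH Pool.Agent.TeamU Pool.Agent.Helper566.FD.J7

/-- for an infinite group the classes with a point are the classes with infinitely many points -/
lemma XS_ne_inf {a b d e : ℤ} (ha : a ≠ 0) (hb : b ≠ 0) (hab : a ≠ b) (hinf : Infinite (GG a b))
    (hd : Squarefree d) (he : Squarefree e) (hne : (XS a b d e).Nonempty) :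
    (d, e) ∈ CC a b := by
  obtain ⟨x, u, v, w, hu, hv, hw, k1, k2, k3⟩ := hne
  have hn : (crv (0 : ℚ) (a : ℚ) (b : ℚ)).toAffine.Nonsingular x (d * e * u * v * w) :=
    crv_nonsing (q12 ha) (q12 hb) (q23 hab) (by rw [k2, k3, add_zero, k1]; ring)
  set P0 : GG a b := Affine.Point.some x (d * e * u * v * w) hn with hP0
  have h0 : P0 ∈ PS a b d e := ⟨x, _, hn, rfl, u, v, w, hu, hv, hw, k1, k2, k3⟩
  obtain ⟨c, hc, P, hP, Q, hQ⟩ := coset_class ha hb hab hinf P0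
  have h1 : (PS a b c.1 c.2).Infinite := (PS_inf_iff ha hb hab).mpr hc.2.2
  have h2 : ({P0, -P0} ∪ (fun T => T + P0) '' (T2 a b) : Set (GG a b)).Finite :=
    (Set.toFinite _).union ((T2_fin a b).image _)
  obtain ⟨P', hP', hn'⟩ := (h1.sdiff h2).nonempty
  obtain ⟨Q', hQ'⟩ := same_class ha hb hab hc.1.ne_zero hc.2.1.ne_zero hP hP'
  have h3 : P' - P0 = (Q + Q') + (Q + Q') := by
    rw [hQ', hQ]; abel
  have h4 : P' - P0 ∉ T2 a b := by
    intro h0
    apply hn'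
    right
    exact ⟨P' - P0, h0, by simp⟩
  have h5 : P' ≠ P0 := fun h0 => hn' (Or.inl (Or.inl h0))
  have h6 : P' ≠ - P0 := fun h0 => hn' (Or.inl (Or.inr h0))
  obtain ⟨e1, e2⟩ := class_eq ha hb hab hd he hc.1 hc.2.1 h0 hP' h3 h4 h5 h6
  have : (d, e) = c := Prod.ext e1 e2
  rw [this]; exact hc

lemma CC_fin {a b : ℤ} (ha : a ≠ 0) (hb : b ≠ 0) (hab : a ≠ b) : (CC a b).Finite := by
  refine Set.Finite.subset (box_fin a b) ?_
  rintro ⟨d, e⟩ ⟨s1, s2, hX⟩
  obtain ⟨x, hx⟩ := hX.nonempty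
  exact XS_box ha hb hab s1 s2 hx

lemma cd_inj (q : ℤ × ℤ) : Function.Injective (cd q) := by
  intro i j hij
  unfold cd at hij
  simp only [Prod.mk.injEq, sub_left_inj, Nat.cast_inj] at hij
  have : Nat.unpair i = Nat.unpair j := Prod.ext hij.1 hij.2
  rw [← Nat.pair_unpair i, ← Nat.pair_unpair j, this]

lemma cd_surj {a b : ℤ} (ha : a ≠ 0) (hb : b ≠ 0) (hab : a ≠ b) {c : ℤ × ℤ} (hc : c ∈ CC a b) :
    ∃ i < szN (a, b), cd (a, b) i = c := by
  obtain ⟨s1, s2, hX⟩ := hc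
  obtain ⟨x, hx⟩ := hX.nonempty
  obtain ⟨b1, b2⟩ := XS_box ha hb hab s1 s2 hx
  rw [← bd_eq] at b1 b2
  obtain ⟨b1, b1'⟩ := abs_le.mp b1
  obtain ⟨b2, b2'⟩ := abs_le.mp b2
  refine ⟨Nat.pair (c.1 + bd (a, b)).toNat (c.2 + bd (a, b)).toNat, ?_, ?_⟩
  · have h1 := Nat.pair_lt_max_add_one_sq (c.1 + bd (a, b)).toNat (c.2 + bd (a, b)).toNat
    refine lt_of_lt_of_le h1 ?_
    unfold szN
    rw [sq]
    have h2 : max (c.1 + bd (a, b)).toNat (c.2 + bd (a, b)).toNat + 1 ≤ 2 * bd (a, b) + 1 := by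
      omega
    exact Nat.mul_le_mul h2 h2
  · unfold cd
    rw [Nat.unpair_pair]
    apply Prod.ext
    · show (((c.1 + bd (a, b)).toNat : ℕ) : ℤ) - _ = _
      rw [Int.toNat_of_nonneg (by linarith)]; ring
    · show (((c.2 + bd (a, b)).toNat : ℕ) : ℤ) - _ = _
      rw [Int.toNat_of_nonneg (by linarith)]; ring

lemma fnd_iff (q : ℤ × ℤ) (B i : ℕ) : fnd (q, B) i = true ↔ Squarefree (cd q i).1 ∧
    Squarefree (cd q i).2 ∧ ∃ k < B, tst (q, cd q i) k = true := by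
  unfold fnd
  rw [Bool.and_eq_true, Bool.and_eq_true, sqb_iff, sqb_iff, hasb_iff, and_assoc]

/-- the found classes -/
def FS (q : ℤ × ℤ) (B : ℕ) : Set (ℤ × ℤ) :=
  cd q '' ↑((range (szN q)).filter (fun i => fnd (q, B) i = true))

lemma fc_eq (q : ℤ × ℤ) (B : ℕ) : fc q B = (FS q B).ncard := by
  unfold fc FS
  rw [cnt_eq, Set.ncard_image_of_injective _ (cd_inj q), Set.ncard_coe_finset]

lemma FS_sub {a b : ℤ} (ha : a ≠ 0) (hb : b ≠ 0) (hab : a ≠ b) (hinf : Infinite (GG a b)) (B : ℕ) :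
    FS (a, b) B ⊆ CC a b := by
  rintro c ⟨i, hi, rfl⟩
  rw [mem_coe, mem_filter, fnd_iff] at hi
  obtain ⟨_, s1, s2, k, _, hk⟩ := hi
  exact XS_ne_inf ha hb hab hinf s1 s2 ((tst_iff a b _ _).mpr ⟨k, hk⟩)

lemma FS_large {a b : ℤ} (ha : a ≠ 0) (hb : b ≠ 0) (hab : a ≠ b) :
    ∃ B, CC a b ⊆ FS (a, b) B := by
  classical
  have hfin := CC_fin ha hb hab
  have hex : ∀ c : ℤ × ℤ, c ∈ CC a b → ∃ k, tst ((a, b), c) k = true := by
    rintro ⟨d, e⟩ hc
    exact (tst_iff a b d e).mp hc.2.2.nonempty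
  choose! kf hkf using hex
  refine ⟨hfin.toFinset.sup kf + 1, ?_⟩
  intro c hc
  obtain ⟨i, hi, hic⟩ := cd_surj ha hb hab hc
  refine ⟨i, ?_, hic⟩
  rw [mem_coe, mem_filter, fnd_iff, hic, mem_range]
  refine ⟨hi, hc.1, hc.2.1, kf c, ?_, hkf c hc⟩
  have : kf c ≤ hfin.toFinset.sup kf := Finset.le_sup (hfin.mem_toFinset.mpr hc)
  omega

/-- nondegeneracy test -/
def nd (q : ℤ × ℤ) : Bool := !(decide (q.1 = 0) || decide (q.2 = 0) || decide (q.1 = q.2))

lemma nd_iff (a b : ℤ) : nd (a, b) = true ↔ a ≠ 0 ∧ b ≠ 0 ∧ a ≠ b := by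
  unfold nd
  simp only [Bool.not_eq_true', Bool.or_eq_false_iff, decide_eq_false_iff_not]
  tauto

lemma comp_nd : Computable nd :=
  (Primrec.not.comp (Primrec.or.comp (Primrec.or.comp
      (Primrec.eq.decide.comp Primrec.fst (Primrec.const 0))
      (Primrec.eq.decide.comp Primrec.snd (Primrec.const 0)))
      (Primrec.eq.decide.comp Primrec.fst Primrec.snd))).to_comp

lemma inf_of_rank {a b : ℤ} (h : Module.finrank ℤ (GG a b) ≠ 0) : Infinite (GG a b) := by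
  by_contra hn
  rw [not_infinite_iff_finite] at hn
  exact h (finrank_zero_of_finite _)

lemma rank_of_inf {a b : ℤ} (ha : a ≠ 0) (hb : b ≠ 0) (hab : a ≠ b) (h : Infinite (GG a b)) :
    Module.finrank ℤ (GG a b) ≠ 0 := by
  intro h0
  have hfg : AddGroup.FG (GG a b) := pt_fg (q12 ha) (q12 hb) (q23 hab)
  have : Module.Finite ℤ (GG a b) := Module.Finite.iff_addGroup_fg.mpr hfg
  rw [Module.finrank_eq_zero_iff_isTorsion] at h0
  have := Module.finite_of_fg_torsion (GG a b) h0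
  exact not_finite (GG a b)

/-- the rank function -/
noncomputable def rk (q : ℤ × ℤ) : ℕ :=
  if q.1 ≠ 0 ∧ q.2 ≠ 0 ∧ q.1 ≠ q.2 then
      Module.finrank ℤ ((⟨0, (q.1 : ℚ) + q.2, 0, (q.1 : ℚ) * q.2, 0⟩ :
        WeierstrassCurve ℚ).toAffine.Point) else 0

lemma rk_eq {a b : ℤ} (ha : a ≠ 0) (hb : b ≠ 0) (hab : a ≠ b) :
    rk (a, b) = Module.finrank ℤ (GG a b) := by
  have e1 : (⟨0, (a : ℚ) + b, 0, (a : ℚ) * b, 0⟩ : WeierstrassCurve ℚ) =
      crv (0 : ℚ) (a : ℚ) (b : ℚ) := by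
    simp [crv]
  unfold rk
  rw [if_pos ⟨ha, hb, hab⟩, e1]

/-- the stopping test -/
noncomputable def stp (q : ℤ × ℤ) (B : ℕ) : Bool := decide (rk q = 0) || decide (fc q B = 2 ^ (rk q) * 4)

lemma comp_stp (h : Computable rk) : Computable₂ stp := by
  unfold stp
  have h1 : Computable (fun z : (ℤ × ℤ) × ℕ => rk z.1) := h.comp Computable.fst
  have h2 : Computable (fun z : (ℤ × ℤ) × ℕ => 2 ^ (rk z.1) * 4) :=
    Primrec.nat_mul.to_comp.comp (prim_pow2.to_comp.comp h1) (Computable.const 4)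
  have h3 : Computable (fun z : (ℤ × ℤ) × ℕ => fc z.1 z.2) := comp_fc
  exact Primrec.or.to_comp.comp (Primrec.eq.decide.to_comp.comp h1 (Computable.const 0))
    (Primrec.eq.decide.to_comp.comp h3 h2)

lemma stp_ex (q : ℤ × ℤ) : ∃ B, stp q B = true := by
  obtain ⟨a, b⟩ := q
  unfold stp
  simp only [Bool.or_eq_true, decide_eq_true_eq]
  by_cases h0 : rk (a, b) = 0
  · exact ⟨0, Or.inl h0⟩
  · have hnd : a ≠ 0 ∧ b ≠ 0 ∧ a ≠ b := by
      by_contra hn
      apply h0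
      unfold rk
      rw [if_neg hn]
    obtain ⟨ha, hb, hab⟩ := hnd
    have hr := rk_eq ha hb hab
    have hinf : Infinite (GG a b) := inf_of_rank (by rw [← hr]; exact h0)
    obtain ⟨B, hB⟩ := FS_large ha hb hab
    refine ⟨B, Or.inr ?_⟩
    have hfg : AddGroup.FG (GG a b) := pt_fg (q12 ha) (q12 hb) (q23 hab)
    have : Module.Finite ℤ (GG a b) := Module.Finite.iff_addGroup_fg.mpr hfg
    have hE : FS (a, b) B = CC a b := Set.Subset.antisymm (FS_sub ha hb hab hinf B) hB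
    rw [fc_eq, hE, hr]
    have h1 : (CC a b).ncard = Nat.card (CC a b) := rfl
    rw [h1, card_CC ha hb hab hinf, card_quot_two, ker_card ha hb hab]

lemma stp_CC {a b : ℤ} (ha : a ≠ 0) (hb : b ≠ 0) (hab : a ≠ b) (h0 : rk (a, b) ≠ 0) {B : ℕ}
    (hB : stp (a, b) B = true) : FS (a, b) B = CC a b := by
  unfold stp at hB
  simp only [Bool.or_eq_true, decide_eq_true_eq] at hB
  have hB' := hB.resolve_left h0
  have hr := rk_eq ha hb hab
  have hinf : Infinite (GG a b) := inf_of_rank (by rw [← hr]; exact h0)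
  have hfg : AddGroup.FG (GG a b) := pt_fg (q12 ha) (q12 hb) (q23 hab)
  have : Module.Finite ℤ (GG a b) := Module.Finite.iff_addGroup_fg.mpr hfg
  refine Set.eq_of_subset_of_ncard_le (FS_sub ha hb hab hinf B) ?_ (CC_fin ha hb hab)
  rw [← fc_eq, hB', hr]
  have h1 : (CC a b).ncard = Nat.card (CC a b) := rfl
  rw [h1, card_CC ha hb hab hinf, card_quot_two, ker_card ha hb hab]

/-- the family of class quartics: `((a, b), (d, e))` is admissible and its quartic has infinitely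
many rational points -/
def Fam (z : (ℤ × ℤ) × (ℤ × ℤ)) : Prop :=
  (z.1.1 ≠ 0 ∧ z.1.2 ≠ 0 ∧ z.1.1 ≠ z.1.2) ∧ (Squarefree z.2.1 ∧ Squarefree z.2.2) ∧
    ZInf (clist z.1.1 z.1.2 z.2.1 z.2.2)

attribute [local irreducible] cnt sqb tst nd fc rk stp hasb

theorem rev (h : Computable rk) : ComputablePred Fam := by
  classical
  -- the bound
  have hB : Computable (fun q : ℤ × ℤ => Nat.find (stp_ex q)) := by
    have h1 : Partrec (fun q : ℤ × ℤ => Nat.rfind (fun B => Part.some (stp q B))) :=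
      Partrec.rfind (Computable₂.partrec₂ (comp_stp h))
    refine Partrec.of_eq_tot h1 (fun q => ?_)
    refine Nat.mem_rfind.mpr ⟨?_, ?_⟩
    · exact Part.mem_some_iff.mpr (Nat.find_spec (stp_ex q)).symm
    · intro m hm
      have := Nat.find_min (stp_ex q) hm
      simp only [Bool.not_eq_true] at this
      exact Part.mem_some_iff.mpr this.symm
  have t1 : Computable (fun z : (ℤ × ℤ) × (ℤ × ℤ) => nd z.1) := comp_nd.comp Computable.fst
  have t2 : Computable (fun z : (ℤ × ℤ) × (ℤ × ℤ) => sqb z.2.1) :=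
    comp_sqb.comp (Computable.fst.comp Computable.snd)
  have t3 : Computable (fun z : (ℤ × ℤ) × (ℤ × ℤ) => sqb z.2.2) :=
    comp_sqb.comp (Computable.snd.comp Computable.snd)
  have t4 : Computable (fun z : (ℤ × ℤ) × (ℤ × ℤ) => !decide (rk z.1 = 0)) :=
    Primrec.not.to_comp.comp (Primrec.eq.decide.to_comp.comp (h.comp Computable.fst)
      (Computable.const 0))
  have t0 : Computable (fun z : (ℤ × ℤ) × (ℤ × ℤ) => (z, Nat.find (stp_ex z.1))) :=
    Computable.pair Computable.id (hB.comp Computable.fst)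
  have t5 : Computable (fun z : (ℤ × ℤ) × (ℤ × ℤ) => hasb (z, Nat.find (stp_ex z.1))) :=
    comp_hasb.comp t0
  have t6 : Computable (fun z : (ℤ × ℤ) × (ℤ × ℤ) => ((nd z.1 && (sqb z.2.1 && sqb z.2.2)) &&
      (!decide (rk z.1 = 0) && hasb (z, Nat.find (stp_ex z.1))))) := by
    have t23 : Computable (fun z : (ℤ × ℤ) × (ℤ × ℤ) => (sqb z.2.1 && sqb z.2.2)) :=
      Primrec.and.to_comp.comp t2 t3
    have t123 : Computable (fun z : (ℤ × ℤ) × (ℤ × ℤ) => (nd z.1 && (sqb z.2.1 && sqb z.2.2))) :=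
      Primrec.and.to_comp.comp t1 t23
    have t45 : Computable (fun z : (ℤ × ℤ) × (ℤ × ℤ) =>
      (!decide (rk z.1 = 0) && hasb (z, Nat.find (stp_ex z.1)))) :=
      Primrec.and.to_comp.comp t4 t5
    exact Primrec.and.to_comp.comp t123 t45
  rw [ComputablePred.computable_iff]
  refine ⟨_, t6, ?_⟩
  funext z
  obtain ⟨⟨a, b⟩, ⟨d, e⟩⟩ := z
  apply propext
  simp only [Fam, Bool.and_eq_true, nd_iff, sqb_iff, Bool.not_eq_true', decide_eq_false_iff_not,
    hasb_iff, and_assoc]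
  constructor
  · rintro ⟨ha, hb, hab, s1, s2, hZ⟩
    rw [Z_inf_iff s1.ne_zero s2.ne_zero hab] at hZ
    have hr := rk_eq ha hb hab
    have hinf : Infinite (GG a b) := by
      by_contra hn
      rw [not_infinite_iff_finite] at hn
      exact (PS_inf_iff ha hb hab).mpr hZ (Set.toFinite _)
    have h0 : rk (a, b) ≠ 0 := by rw [hr]; exact rank_of_inf ha hb hab hinf
    refine ⟨ha, hb, hab, s1, s2, h0, ?_⟩
    have hc : (d, e) ∈ FS (a, b) (Nat.find (stp_ex (a, b))) := by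
      rw [stp_CC ha hb hab h0 (Nat.find_spec (stp_ex (a, b)))]
      exact ⟨s1, s2, hZ⟩
    obtain ⟨i, hi, hic⟩ := hc
    rw [mem_coe, mem_filter, fnd_iff, hic] at hi
    exact hi.2.2.2
  · rintro ⟨ha, hb, hab, s1, s2, h0, k, hk, ht⟩
    have hr := rk_eq ha hb hab
    have hinf : Infinite (GG a b) := inf_of_rank (by rw [← hr]; exact h0)
    have := XS_ne_inf ha hb hab hinf s1 s2 ((tst_iff a b d e).mpr ⟨k, ht⟩)
    exact ⟨ha, hb, hab, s1, s2, (Z_inf_iff s1.ne_zero s2.ne_zero hab).mpr this.2.2⟩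

/-- decidability of the whole problem restricts to the family -/
theorem fam_of (h : ComputablePred ZInf) : ComputablePred Fam := by
  obtain ⟨f, hf, hZ⟩ := ComputablePred.computable_iff.mp h
  have t1 : Computable (fun z : (ℤ × ℤ) × (ℤ × ℤ) => nd z.1) := comp_nd.comp Computable.fst
  have t2 : Computable (fun z : (ℤ × ℤ) × (ℤ × ℤ) => sqb z.2.1) :=
    comp_sqb.comp (Computable.fst.comp Computable.snd)
  have t3 : Computable (fun z : (ℤ × ℤ) × (ℤ × ℤ) => sqb z.2.2) :=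
    comp_sqb.comp (Computable.snd.comp Computable.snd)
  have t4 : Computable (fun z : (ℤ × ℤ) × (ℤ × ℤ) => f (clist z.1.1 z.1.2 z.2.1 z.2.2)) :=
    hf.comp comp_clist
  have t6 : Computable (fun z : (ℤ × ℤ) × (ℤ × ℤ) => ((nd z.1 && (sqb z.2.1 && sqb z.2.2)) &&
      f (clist z.1.1 z.1.2 z.2.1 z.2.2))) := by
    have t23 : Computable (fun z : (ℤ × ℤ) × (ℤ × ℤ) => (sqb z.2.1 && sqb z.2.2)) :=
      Primrec.and.to_comp.comp t2 t3
    have t123 : Computable (fun z : (ℤ × ℤ) × (ℤ × ℤ) => (nd z.1 && (sqb z.2.1 && sqb z.2.2))) :=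
      Primrec.and.to_comp.comp t1 t23
    exact Primrec.and.to_comp.comp t123 t4
  rw [ComputablePred.computable_iff]
  refine ⟨_, t6, ?_⟩
  funext z
  obtain ⟨⟨a, b⟩, ⟨d, e⟩⟩ := z
  apply propext
  simp only [Fam, Bool.and_eq_true, nd_iff, sqb_iff, and_assoc, hZ]

theorem fwd (h : ComputablePred Fam) : Computable rk := by
  obtain ⟨f, hf, hF⟩ := ComputablePred.computable_iff.mp h
  have hcd : Computable (fun z : (ℤ × ℤ) × ℕ => cd z.1 z.2) := comp_cd
  have hg : Computable₂ (fun (q : ℤ × ℤ) (i : ℕ) => f (q, cd q i)) :=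
    hf.comp (Computable.pair Computable.fst hcd)
  have hc := comp_lg.comp (comp_cnt comp_szN hg)
  refine (Computable.cond comp_nd hc (Computable.const 0)).of_eq (fun q => ?_)
  obtain ⟨a, b⟩ := q
  by_cases hq : a ≠ 0 ∧ b ≠ 0 ∧ a ≠ b
  · have hnd : nd (a, b) = true := (nd_iff a b).mpr hq
    obtain ⟨ha, hb, hab⟩ := hq
    rw [hnd, cond_true, rk_eq ha hb hab, rank_eq ha hb hab]
    congr 1
    have hfz : ∀ z, f z = true ↔ Fam z := by
      intro z
      rw [hF]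
    rw [cnt_eq]
    have hset : CC a b = cd (a, b) '' ↑((range (szN (a, b))).filter
        (fun k => f ((a, b), cd (a, b) k) = true)) := by
      ext c
      simp only [Set.mem_image, coe_filter, mem_range, Set.mem_ofPred_eq]
      constructor
      · intro hc
        obtain ⟨i, hi, hic⟩ := cd_surj ha hb hab hc
        refine ⟨i, ⟨hi, ?_⟩, hic⟩
        rw [hfz, hic]
        exact ⟨⟨ha, hb, hab⟩, ⟨hc.1, hc.2.1⟩,
          (Z_inf_iff hc.1.ne_zero hc.2.1.ne_zero hab).mpr hc.2.2⟩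
      · rintro ⟨k, ⟨_, hk⟩, rfl⟩
        rw [hfz] at hk
        exact ⟨hk.2.1.1, hk.2.1.2,
          (Z_inf_iff hk.2.1.1.ne_zero hk.2.1.2.ne_zero hab).mp hk.2.2⟩
    have h1 : Nat.card (CC a b) = (CC a b).ncard := rfl
    rw [h1, hset, Set.ncard_image_of_injective _ (cd_inj (a, b)), Set.ncard_coe_finset]
  · have hnd : nd (a, b) = false := by
      rw [← Bool.not_eq_true, nd_iff]; exact hq
    rw [hnd, cond_false]
    unfold rk
    rw [if_neg hq]

end Pool.Agent.TH352.RC
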