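import Mathlib
import Pool.Agent.TH352.RC.RC7

set_option autoImplicit false

open Finset WeierstrassCurve

namespace Pool.Agent.TH352.RC

open Pool.Agent.H437R2.Man.MW Pool.Agent.TH841.SH Pool.Agent.TeamU

theorem count {a b : ℤ} (ha : a ≠ 0) (hb : b ≠ 0) (hab : a ≠ b) :
    {c : ℤ × ℤ | Fam ((a, b), c)}.Finite ∧
      {c : ℤ × ℤ | Fam ((a, b), c)}.ncard = if rk (a, b) = 0 then 0 else 2 ^ (rk (a, b) + 2) := by
  have hset : {c : ℤ × ℤ | Fam ((a, b), c)} = CC a b := by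
    ext c
    constructor
    · rintro ⟨_, ⟨s1, s2⟩, hZ⟩
      exact ⟨s1, s2, (Z_inf_iff s1.ne_zero s2.ne_zero hab).mp hZ⟩
    · rintro ⟨s1, s2, hX⟩
      exact ⟨⟨ha, hb, hab⟩, ⟨s1, s2⟩, (Z_inf_iff s1.ne_zero s2.ne_zero hab).mpr hX⟩
  rw [hset]
  refine ⟨CC_fin ha hb hab, ?_⟩
  have hfg : AddGroup.FG (GG a b) := pt_fg (q12 ha) (q12 hb) (q23 hab)
  have : Module.Finite ℤ (GG a b) := Module.Finite.iff_addGroup_fg.mpr hfg
  have hr := rk_eq ha hb hab
  split_ifs with h0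
  · have hfin : Finite (GG a b) := by
      by_contra hn
      rw [not_finite_iff_infinite] at hn
      exact rank_of_inf ha hb hab hn (by rw [← hr]; exact h0)
    rw [Set.ncard_eq_zero (CC_fin ha hb hab)]
    ext c
    simp only [Set.mem_empty_iff_false, iff_false]
    rintro ⟨_, _, h⟩
    exact (PS_inf_iff ha hb hab).mpr h (Set.toFinite _)
  · have hinf : Infinite (GG a b) := inf_of_rank (by rw [← hr]; exact h0)
    have h1 : (CC a b).ncard = Nat.card (CC a b) := rfl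
    rw [h1, card_CC ha hb hab hinf, card_quot_two, ker_card ha hb hab, hr, pow_add]
    norm_num

end Pool.Agent.TH352.RC
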